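import Pool.Agent.R959.LD3.Defs

set_option autoImplicit false

/-!
# ITER3: iteration of the phases, and MAIN3: the signs
-/

open MeasureTheory ProbabilityTheory Filter

namespace Pool.Agent.R959.LD3

open Pool.Agent.H320R2.LD Pool.Agent.R959.LD2

theorem prove_ITER3 (ν κ σ : ℝ) (hσ : 0 < σ) (h1 : St_PHASE3 ν κ σ) : St_ITER3 ν κ σ := by
  obtain ⟨C, t0, hC, ht0, hph⟩ := h1
  set ρ : ℝ := (4/5 : ℝ) ^ (1/4 : ℝ) with hρ
  have hρ0 : 0 < ρ := Real.rpow_pos_of_pos (by norm_num) _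
  have hρ1 : ρ < 1 := Real.rpow_lt_one (by norm_num) (by norm_num) (by norm_num)
  have hgeo : ∀ j : ℕ, ∑ i ∈ Finset.range j, ρ ^ i ≤ 1 / (1 - ρ) := by
    intro j
    rw [geom_sum_eq hρ1.ne, ← neg_div_neg_eq, neg_sub, neg_sub]
    exact div_le_div_of_nonneg_right (by linarith [pow_pos hρ0 j]) (by linarith)
  refine ⟨C * (1 / (1 - ρ)), t0, mul_pos hC (one_div_pos.mpr (by linarith)), ht0, ?_⟩
  intro t ht V W _ _ A hA
  have htp : 0 < t := by linarith
  have hpow : 0 < t ^ (-σ) := Real.rpow_pos_of_pos htp _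
  have hex : ∃ n : ℕ, (4/5 : ℝ) ^ n ≤ t ^ (-σ) := by
    obtain ⟨n, hn⟩ := exists_pow_lt_of_lt_one hpow (show (4/5 : ℝ) < 1 by norm_num)
    exact ⟨n, hn.le⟩
  classical
  set n := Nat.find hex with hn
  have hn1 : (4/5 : ℝ) ^ n ≤ t ^ (-σ) := Nat.find_spec hex
  have hn2 : ∀ j < n, t ^ (-σ) < (4/5 : ℝ) ^ j := fun j hj =>
    not_le.mp (Nat.find_min hex hj)
  have key : ∀ j : ℕ, j ≤ n → ∃ a : V → ℝ, (∀ v, |a v| ≤ 1) ∧ (∀ R, Phi A a R ≤ (4/5 : ℝ) ^ j) ∧
      ∀ R, |∑ v, A R v * a v| ≤ C * ∑ i ∈ Finset.range j, ρ ^ i := by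
    intro j
    induction j with
    | zero =>
      intro _
      refine ⟨fun _ => 0, fun v => by simp, fun R => ?_, fun R => by simp⟩
      unfold Phi
      simpa using hA.2.1 R
    | succ j ih =>
      intro hj
      obtain ⟨a, ha1, ha2, ha3⟩ := ih (by omega)
      have hjn : j < n := by omega
      obtain ⟨a', ha1', ha2', ha3'⟩ := hph t ((4/5 : ℝ) ^ j) ht
        (hn2 j hjn).le (pow_le_one₀ (by norm_num) (by norm_num)) V W A a hA ha1 ha2
      refine ⟨a', ha1', fun R => ?_, fun R => ?_⟩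
      · have := ha2' R
        rw [pow_succ]
        linarith
      · have h1 := ha3 R
        have h2 := ha3' R
        have h3 : ∑ v, A R v * a' v = ∑ v, A R v * a v + ∑ v, A R v * (a' v - a v) := by
          rw [← Finset.sum_add_distrib]
          exact Finset.sum_congr rfl fun v _ => by ring
        have h4 : ((4/5 : ℝ) ^ j) ^ (1/4 : ℝ) = ρ ^ j := by
          rw [hρ, ← Real.rpow_natCast, ← Real.rpow_natCast, ← Real.rpow_mul (by norm_num),
            ← Real.rpow_mul (by norm_num), mul_comm]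
        rw [h4] at h2
        rw [h3, Finset.sum_range_succ, mul_add]
        exact (abs_add_le _ _).trans (add_le_add h1 h2)
  obtain ⟨a, ha1, ha2, ha3⟩ := key n le_rfl
  refine ⟨a, ha1, fun R => (ha2 R).trans hn1, fun R => (ha3 R).trans ?_⟩
  exact mul_le_mul_of_nonneg_left (hgeo n) hC.le

theorem prove_MAIN3 (ν κ σ : ℝ) (hκ : 0 < κ) (h1 : St_ITER3 ν κ σ) (h2 : St_ROUND3 ν κ σ) :
    St_MAIN3 ν κ := by
  obtain ⟨C, t0, hC, ht0, hI⟩ := h1
  obtain ⟨t1, ht1, hR⟩ := h2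
  have hmax : 0 ≤ max t0 t1 := le_trans (by linarith) (le_max_left t0 t1)
  refine ⟨C + 10 + Real.exp ((max t0 t1) ^ κ), by positivity, ?_⟩
  intro t ht V W _ _ A hA
  classical
  by_cases hbig : max t0 t1 ≤ t
  · obtain ⟨a, ha1, ha2, ha3⟩ := hI t ((le_max_left _ _).trans hbig) V W A hA
    have hsq : ∀ R, ∑ v, A R v ^ 2 * (1 - |a v|) ≤ t ^ (-σ) := by
      intro R
      refine le_trans (Finset.sum_le_sum fun v _ => ?_) (ha2 R)
      apply mul_le_mul_of_nonneg_left _ (sq_nonneg _)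
      have h0 : 0 ≤ 1 - |a v| := by linarith [ha1 v]
      have h1 : 1 - |a v| ≤ 1 := by linarith [abs_nonneg (a v)]
      calc 1 - |a v| = Real.sqrt ((1 - |a v|) ^ 2) := (Real.sqrt_sq h0).symm
        _ ≤ Real.sqrt (1 - |a v|) := Real.sqrt_le_sqrt (by nlinarith)
    obtain ⟨x, hx1, hx2⟩ := hR t ((le_max_right _ _).trans hbig) V W A a hA ha1 hsq
    refine ⟨x, hx1, fun R => ?_⟩
    have h3 : ∑ v, A R v * x v = ∑ v, A R v * (x v - a v) + ∑ v, A R v * a v := by
      rw [← Finset.sum_add_distrib]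
      exact Finset.sum_congr rfl fun v _ => by ring
    rw [h3]
    refine (abs_add_le _ _).trans ?_
    have := Real.exp_pos ((max t0 t1) ^ κ)
    linarith [hx2 R, ha3 R]
  · push Not at hbig
    refine ⟨fun _ => 1, fun _ => Or.inl rfl, fun R => ?_⟩
    obtain ⟨hA1, _, _, _, hA4, _⟩ := hA
    have h1 : ∀ v, |A R v| ≤ 1 := by
      intro v
      have h2 := hA1 R v
      have h3 : A R v ^ 2 ≤ 1 := by nlinarith [sq_nonneg (A R v)]
      exact abs_le_one_iff_mul_self_le_one.2 (by nlinarith)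
    have h2 : |∑ v, A R v * 1| ≤ ∑ v ∈ supp (A R), (1 : ℝ) := by
      calc |∑ v, A R v * 1| ≤ ∑ v, |A R v * 1| := Finset.abs_sum_le_sum_abs _ _
        _ = ∑ v ∈ supp (A R), |A R v * 1| := by
            symm
            refine Finset.sum_subset (Finset.subset_univ _) fun v _ hv => ?_
            have : A R v = 0 := by
              by_contra h0
              exact hv ((mem_supp _ _).mpr h0)
            rw [this]; simp
        _ ≤ _ := Finset.sum_le_sum fun v _ => by rw [mul_one]; exact h1 v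
    rw [Finset.sum_const, nsmul_eq_mul, mul_one] at h2
    have h4 : Real.exp (t ^ κ) ≤ Real.exp ((max t0 t1) ^ κ) :=
      Real.exp_le_exp.mpr (Real.rpow_le_rpow (by linarith) hbig.le hκ.le)
    linarith [hA4 R]

end Pool.Agent.R959.LD3
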