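import Pool.Agent.H320R2.LD.Chain
import Pool.Agent.R959.LD3.PHASE3
import Pool.Agent.R959.LD3.ITER3

set_option autoImplicit false

namespace Pool.Agent.R959.LD3

open Pool.Agent.H320R2.LD

/-- The discrepancy of admissible matrices is bounded, given the parameters and the rounding. -/
theorem chain3 (ν κ σ : ℝ) (hκ : 0 < κ) (hσ : 0 < σ) (hPARAM : St_PARAM3 ν κ σ)
    (hROUND : St_LLL → St_ROUND3 ν κ σ) : St_MAIN3 ν κ := by
  have mgf := prove_MGF
  have conc := prove_CONC mgf
  have mom := prove_MOM mgf
  have pot1 := prove_POT1
  have pot2 := prove_POT2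
  have two := prove_TWO
  have sol := prove_SOL pot1 two
  have mix := prove_MIX
  have lll := prove_LLL mix
  have cond := prove_COND conc mix
  have shift := prove_SHIFT two pot1 pot2
  have sh := prove_SH mix
  have mean := prove_MEAN shift sh two sol
  have far := prove_FAR sol conc mom pot2
  have eh := prove_EH sol mom pot2
  have hotp := prove_HOTP sol conc mgf mom pot2
  have ct := prove_CT two pot1
  have loc := prove_LOC hotp prove_PATH prove_CH ct sol cond
  have phase := prove_PHASE3 ν κ σ prove_EX sol loc prove_DEP lll far eh mean prove_GEX conc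
    pot1 hPARAM
  exact prove_MAIN3 ν κ σ hκ (prove_ITER3 ν κ σ hσ phase) (hROUND lll)

end Pool.Agent.R959.LD3
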