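import Pool.Agent.R959.LD3.Defs

set_option autoImplicit false

/-!
# Consequences of `St_MAIN3`
-/

open Finset

namespace Pool.Agent.R959.LD3

open Pool.Agent.H320R2.LD Pool.Agent.R959.LD2

theorem supp_card {V : Type} [Fintype V] (f : V → ℝ) : (supp f).card = {v | f v ≠ 0}.ncard := by
  classical
  rw [Set.ncard_eq_toFinset_card']
  congr 1
  ext v
  rw [mem_supp]
  simp

/-- a weighted form of the Schur test -/
theorem schur3 {V W : Type} [Fintype V] [Fintype W] (A : W → V → ℝ) (w : W → ℝ) (t : ℝ)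
    (hw : ∀ R, 0 < w R) (h1 : ∀ R, ∑ v, |A R v| ≤ w R) (h2 : ∀ v, ∑ R, |A R v| ≤ t) (x : V → ℝ) :
    ∑ R, (∑ v, |A R v| * |x v|) ^ 2 / w R ≤ t * nsq x := by
  have r3 : ∀ R, (∑ v, |A R v| * |x v|) ^ 2 / w R ≤ ∑ v, |A R v| * x v ^ 2 := by
    intro R
    have cs := Finset.sum_mul_sq_le_sq_mul_sq Finset.univ (fun v => Real.sqrt |A R v|)
      (fun v => Real.sqrt |A R v| * |x v|)
    have e1 : ∀ v, Real.sqrt |A R v| * (Real.sqrt |A R v| * |x v|) = |A R v| * |x v| := by
      intro v
      rw [← mul_assoc, Real.mul_self_sqrt (abs_nonneg _)]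
    have e2 : ∀ v, Real.sqrt |A R v| ^ 2 = |A R v| := fun v => Real.sq_sqrt (abs_nonneg _)
    have e3 : ∀ v, (Real.sqrt |A R v| * |x v|) ^ 2 = |A R v| * x v ^ 2 := by
      intro v
      rw [mul_pow, Real.sq_sqrt (abs_nonneg _), sq_abs]
    simp only [e1, e2, e3] at cs
    rw [div_le_iff₀ (hw R)]
    refine cs.trans ?_
    rw [mul_comm]
    exact mul_le_mul_of_nonneg_left (h1 R)
      (Finset.sum_nonneg fun v _ => mul_nonneg (abs_nonneg _) (sq_nonneg _))
  calc ∑ R, (∑ v, |A R v| * |x v|) ^ 2 / w R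
      ≤ ∑ R, ∑ v, |A R v| * x v ^ 2 := Finset.sum_le_sum fun R _ => r3 R
    _ = ∑ v, (∑ R, |A R v|) * x v ^ 2 := by
        rw [Finset.sum_comm]
        refine Finset.sum_congr rfl fun v _ => ?_
        rw [Finset.sum_mul]
    _ ≤ ∑ v, t * x v ^ 2 :=
        Finset.sum_le_sum fun v _ => mul_le_mul_of_nonneg_right (h2 v) (sq_nonneg _)
    _ = t * nsq x := by rw [← Finset.mul_sum, nsq]

/-- real matrices with entries at most one -/
theorem cor_long (κ : ℝ) (hκ : 0 < κ) (h : St_MAIN3 1 κ) :
    ∃ C : ℝ, 0 < C ∧ ∀ (V W : Type) [Fintype V] [Fintype W] (k : ℕ) (t : ℝ) (A : W → V → ℝ),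
      0 ≤ t → (∀ i j, |A i j| ≤ 1) → (∀ j, ∑ i, |A i j| ≤ t) →
      (∀ i, (supp (A i)).card ≤ k) → (∀ j, (supp (fun i => A i j)).card ≤ k) →
      ∃ y : V → ℝ, (∀ j, y j = 1 ∨ y j = -1) ∧
        ∀ i, |∑ j, A i j * y j| ≤ C * Real.sqrt (t + ∑ j, |A i j| + (Real.log k) ^ (1 / κ)) := by
  obtain ⟨C, hC, h⟩ := h
  refine ⟨2 * C + 1, by positivity, fun V W _ _ k t A ht0 h1 h2 h3 h4 => ?_⟩
  have hlk : 0 ≤ Real.log k := Real.log_natCast_nonneg k
  have hLk : 0 ≤ (Real.log k) ^ (1 / κ) := Real.rpow_nonneg hlk _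
  set τ : ℝ := max 1 (max t ((Real.log k) ^ (1 / κ))) with hτ
  have hτ1 : 1 ≤ τ := le_max_left _ _
  have hτ0 : 0 < τ := by linarith
  have hτt : t ≤ τ := (le_max_left _ _).trans (le_max_right _ _)
  have hτk : (Real.log k) ^ (1 / κ) ≤ τ := (le_max_right _ _).trans (le_max_right _ _)
  have hkexp : (k : ℝ) ≤ Real.exp (τ ^ κ) := by
    rcases Nat.eq_zero_or_pos k with hk | hk
    · subst hk
      simp only [Nat.cast_zero]
      exact (Real.exp_pos _).le
    · have hk0 : (0 : ℝ) < k := by exact_mod_cast hk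
      have e1 : Real.log k ≤ τ ^ κ := by
        calc Real.log k = ((Real.log k) ^ (1 / κ)) ^ κ := by
              rw [← Real.rpow_mul hlk]
              field_simp
              rw [Real.rpow_one]
          _ ≤ τ ^ κ := Real.rpow_le_rpow hLk hτk hκ.le
      calc (k : ℝ) = Real.exp (Real.log k) := (Real.exp_log hk0).symm
        _ ≤ Real.exp (τ ^ κ) := Real.exp_le_exp.mpr e1
  set a : W → ℝ := fun i => ∑ j, |A i j| with ha
  have ha0 : ∀ i, 0 ≤ a i := fun i => Finset.sum_nonneg fun j _ => abs_nonneg _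
  set w : W → ℝ := fun i => max τ (a i) with hw
  have hwτ : ∀ i, τ ≤ w i := fun i => le_max_left _ _
  have hwa : ∀ i, a i ≤ w i := fun i => le_max_right _ _
  have hw0 : ∀ i, 0 < w i := fun i => lt_of_lt_of_le hτ0 (hwτ i)
  have hsw : ∀ i, 0 < Real.sqrt (w i) := fun i => Real.sqrt_pos.2 (hw0 i)
  set B : W → V → ℝ := fun i j => A i j / Real.sqrt (w i) with hB
  have hBsq : ∀ i j, B i j ^ 2 = A i j ^ 2 / w i := by
    intro i j
    simp only [hB]
    rw [div_pow, Real.sq_sqrt (hw0 i).le]
  have hA2 : ∀ i j, A i j ^ 2 ≤ |A i j| := by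
    intro i j
    rw [← sq_abs]
    nlinarith [h1 i j, abs_nonneg (A i j)]
  have hBne : ∀ i j, B i j ≠ 0 ↔ A i j ≠ 0 := by
    intro i j
    simp only [hB]
    rw [div_ne_zero_iff]
    exact ⟨fun h => h.1, fun h => ⟨h, (hsw i).ne'⟩⟩
  have hadm : Adm3 1 κ τ B := by
    refine ⟨fun i j => ?_, fun i => ?_, fun j => ?_, fun x => ?_, fun i => ?_, fun j => ?_⟩
    · rw [hBsq, div_mul_eq_mul_div, div_le_one (hw0 i)]
      have h5 := h1 i j
      have h6 : A i j ^ 2 ≤ 1 := by
        rw [← sq_abs]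
        exact pow_le_one₀ (abs_nonneg _) h5
      have h7 : A i j ^ 2 * τ ≤ 1 * τ := mul_le_mul_of_nonneg_right h6 hτ0.le
      linarith [hwτ i]
    · simp only [hBsq]
      rw [← Finset.sum_div, div_le_one (hw0 i)]
      exact (Finset.sum_le_sum fun j _ => hA2 i j).trans (hwa i)
    · simp only [hBsq]
      calc ∑ i, A i j ^ 2 / w i ≤ ∑ i, |A i j| / τ := by
            refine Finset.sum_le_sum fun i _ => ?_
            calc A i j ^ 2 / w i ≤ |A i j| / w i := div_le_div_of_nonneg_right (hA2 i j) (hw0 i).le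
              _ ≤ |A i j| / τ := div_le_div_of_nonneg_left (abs_nonneg _) hτ0 (hwτ i)
        _ = (∑ i, |A i j|) / τ := by rw [Finset.sum_div]
        _ ≤ 1 := by
            rw [div_le_one hτ0]
            exact (h2 j).trans hτt
    · rw [Real.rpow_one]
      calc ∑ i, (∑ j, |B i j| * |x j|) ^ 2 = ∑ i, (∑ j, |A i j| * |x j|) ^ 2 / w i := by
            refine Finset.sum_congr rfl fun i _ => ?_
            have e1 : ∑ j, |B i j| * |x j| = (∑ j, |A i j| * |x j|) / Real.sqrt (w i) := by
              rw [Finset.sum_div]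
              refine Finset.sum_congr rfl fun j _ => ?_
              simp only [hB]
              rw [abs_div, abs_of_pos (hsw i)]
              ring
            rw [e1, div_pow, Real.sq_sqrt (hw0 i).le]
        _ ≤ t * nsq x := schur3 A w t hw0 hwa h2 x
        _ ≤ τ * nsq x := by
            refine mul_le_mul_of_nonneg_right hτt ?_
            exact Finset.sum_nonneg fun j _ => sq_nonneg _
    · refine le_trans ?_ hkexp
      have e : supp (B i) = supp (A i) := by
        ext j
        rw [mem_supp, mem_supp, hBne]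
      rw [e]
      exact_mod_cast h3 i
    · refine le_trans ?_ hkexp
      have e : supp (fun i => B i j) = supp (fun i => A i j) := by
        ext i
        rw [mem_supp, mem_supp, hBne]
      rw [e]
      exact_mod_cast h4 j
  obtain ⟨y, hy, hb⟩ := h τ hτ1 V W B hadm
  refine ⟨y, hy, fun i => ?_⟩
  set X := t + a i + (Real.log k) ^ (1 / κ) with hX
  have hX0 : 0 ≤ X := by
    rw [hX]
    linarith [ha0 i]
  have e1 : ∑ j, B i j * y j = (∑ j, A i j * y j) / Real.sqrt (w i) := by
    rw [Finset.sum_div]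
    refine Finset.sum_congr rfl fun j _ => ?_
    simp only [hB]
    ring
  have hbi := hb i
  rw [e1, abs_div, abs_of_pos (hsw i), div_le_iff₀ (hsw i)] at hbi
  rcases le_total (a i) 1 with h5 | h5
  · have tri : |∑ j, A i j * y j| ≤ a i := by
      refine (Finset.abs_sum_le_sum_abs _ _).trans (Finset.sum_le_sum fun j _ => ?_)
      rw [abs_mul]
      rcases hy j with h | h <;> rw [h] <;> simp
    have e2 : a i ≤ Real.sqrt (a i) := by
      refine Real.le_sqrt_of_sq_le ?_
      nlinarith [ha0 i]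
    have e3 : Real.sqrt (a i) ≤ Real.sqrt X := Real.sqrt_le_sqrt (by rw [hX]; linarith)
    nlinarith [Real.sqrt_nonneg X]
  · have hw2 : w i ≤ 2 ^ 2 * X := by
      have h6 : τ ≤ 1 + t + (Real.log k) ^ (1 / κ) :=
        max_le (by linarith) (max_le (by linarith) (by linarith))
      have h7 : w i ≤ τ + a i := max_le (by linarith [ha0 i]) (by linarith)
      rw [hX]
      linarith
    have e4 : Real.sqrt (w i) ≤ 2 * Real.sqrt X := by
      refine Real.sqrt_le_iff.2 ⟨by positivity, ?_⟩
      rw [mul_pow, Real.sq_sqrt hX0]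
      exact hw2
    calc |∑ j, A i j * y j| ≤ C * Real.sqrt (w i) := hbi
      _ ≤ C * (2 * Real.sqrt X) := mul_le_mul_of_nonneg_left e4 hC.le
      _ ≤ (2 * C + 1) * Real.sqrt X := by nlinarith [Real.sqrt_nonneg X]

/-- splitting a sum into pairs -/
theorem sum_pairs (f : ℕ → ℝ) (N : ℕ) :
    ∑ j ∈ range (2 * N), f j = ∑ p ∈ range N, (f (2 * p) + f (2 * p + 1)) := by
  induction N with
  | zero => simp
  | succ N ih =>
    rw [show 2 * (N + 1) = 2 * N + 1 + 1 by ring, sum_range_succ, sum_range_succ, ih,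
      sum_range_succ]
    ring

/-- the balanced extension of signs of the pairs -/
def ye (z : ℕ → ℝ) (j : ℕ) : ℝ := if j % 2 = 0 then z (j / 2) else - z (j / 2)

theorem ye_even (z : ℕ → ℝ) (p : ℕ) : ye z (2 * p) = z p := by
  unfold ye
  rw [if_pos (by omega)]
  congr 1
  omega

theorem ye_odd (z : ℕ → ℝ) (p : ℕ) : ye z (2 * p + 1) = - z p := by
  unfold ye
  rw [if_neg (by omega)]
  congr 2
  omega

theorem prefix_ye (z : ℕ → ℝ) (hz : ∀ p, |z p| ≤ 1) (c : ℕ) : |∑ j ∈ range c, ye z j| ≤ 1 := by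
  have h0 : ∀ N, ∑ j ∈ range (2 * N), ye z j = 0 := by
    intro N
    rw [sum_pairs]
    refine sum_eq_zero fun p _ => ?_
    rw [ye_even, ye_odd]
    ring
  rcases Nat.even_or_odd' c with ⟨N, h | h⟩
  · rw [h, h0]; simp
  · rw [h, sum_range_succ, h0, ye_even, zero_add]
    exact hz N

/-- the same with bounded prefix sums -/
theorem cor_prefix (κ : ℝ) (hκ : 0 < κ) (h : St_MAIN3 1 κ) :
    ∃ C : ℝ, 0 < C ∧ ∀ (n m k : ℕ) (t : ℝ) (A : Fin m → Fin n → ℝ),
      (∀ i j, |A i j| ≤ 1) → (∀ j, ∑ i, |A i j| ≤ t) →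
      (∀ i, {j | A i j ≠ 0}.ncard ≤ k) → (∀ j, {i | A i j ≠ 0}.ncard ≤ k) →
      ∃ y : Fin n → ℝ, (∀ j, y j = 1 ∨ y j = -1) ∧
        (∀ i, |∑ j, A i j * y j| ≤ C * Real.sqrt (t + ∑ j, |A i j| + (Real.log k) ^ (1 / κ))) ∧
        ∀ c : ℕ, |∑ j ∈ univ.filter (fun j : Fin n => (j : ℕ) < c), y j| ≤ 1 := by
  classical
  obtain ⟨C, hC, h⟩ := cor_long κ hκ h
  refine ⟨2 * C * Real.sqrt (2 ^ (1 / κ)) + 1, by positivity, fun n m k t A h1 h2 h3 h4 => ?_⟩
  rcases Nat.eq_zero_or_pos n with hn | hn
  · subst hn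
    refine ⟨fun _ => 1, fun _ => Or.inl rfl, fun i => ?_, fun c => ?_⟩
    · simp only [Finset.univ_eq_empty, Finset.sum_empty, abs_zero]
      positivity
    · simp
  have ht0 : 0 ≤ t := (Finset.sum_nonneg fun j _ => abs_nonneg _).trans (h2 ⟨0, hn⟩)
  have hlk : 0 ≤ Real.log k := Real.log_natCast_nonneg k
  set N := (n + 1) / 2 with hN
  have hnN : n ≤ 2 * N := by omega
  set Ae : Fin m → ℕ → ℝ := fun i j => if h : j < n then A i ⟨j, h⟩ else 0 with hAe
  have hAe1 : ∀ i (j : Fin n), Ae i j = A i j := fun i j => by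
    simp only [hAe, j.2, dif_pos]
  have hAe2 : ∀ i j, n ≤ j → Ae i j = 0 := fun i j hj => by
    simp only [hAe, dif_neg (not_lt.mpr hj)]
  have hAeb : ∀ i j, |Ae i j| ≤ 1 := by
    intro i j
    simp only [hAe]
    split_ifs with h
    · exact h1 i _
    · simp
  have hAec : ∀ j, ∑ i, |Ae i j| ≤ t := by
    intro j
    by_cases h : j < n
    · have : ∀ i, |Ae i j| = |A i ⟨j, h⟩| := fun i => by simp only [hAe, dif_pos h]
      simp only [this]
      exact h2 _
    · have : ∀ i, |Ae i j| = 0 := fun i => by rw [hAe2 i j (not_lt.mp h), abs_zero]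
      simp only [this, Finset.sum_const_zero]
      exact ht0
  have hsum : ∀ (g : ℕ → ℝ), (∀ j, n ≤ j → g j = 0) → ∑ j : Fin n, g j = ∑ j ∈ range (2 * N), g j := by
    intro g hg
    rw [Fin.sum_univ_eq_sum_range]
    refine Finset.sum_subset (Finset.range_subset_range.mpr hnN) fun j _ hj => ?_
    exact hg j (by simpa using hj)
  set B : Fin m → Fin N → ℝ := fun i p => (Ae i (2 * p) - Ae i (2 * p + 1)) / 2 with hB
  have hrow : ∀ i, ∑ p, |B i p| ≤ ∑ j, |A i j| := by
    intro i
    have e1 : ∑ j, |A i j| = ∑ p ∈ range N, (|Ae i (2 * p)| + |Ae i (2 * p + 1)|) := by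
      rw [← sum_pairs (fun j => |Ae i j|), ← hsum (fun j => |Ae i j|)
        (fun j hj => by rw [hAe2 i j hj, abs_zero])]
      refine Finset.sum_congr rfl fun j _ => ?_
      rw [hAe1]
    rw [e1, ← Fin.sum_univ_eq_sum_range (fun p => |Ae i (2 * p)| + |Ae i (2 * p + 1)|)]
    refine Finset.sum_le_sum fun p _ => ?_
    simp only [hB]
    rw [abs_div, abs_of_pos (by norm_num : (0 : ℝ) < 2)]
    have h5 := abs_sub (Ae i (2 * p)) (Ae i (2 * p + 1))
    have h6 := abs_nonneg (Ae i (2 * p))
    have h7 := abs_nonneg (Ae i (2 * p + 1))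
    linarith
  obtain ⟨z, hz, hb⟩ := h (Fin N) (Fin m) (2 * k) t B ht0 (by
    intro i p
    simp only [hB]
    rw [abs_div, abs_of_pos (by norm_num : (0 : ℝ) < 2)]
    have h5 := abs_sub (Ae i (2 * p)) (Ae i (2 * p + 1))
    have h6 := hAeb i (2 * p)
    have h7 := hAeb i (2 * p + 1)
    linarith) (by
    intro p
    calc ∑ i, |B i p| ≤ ∑ i, (|Ae i (2 * p)| + |Ae i (2 * p + 1)|) / 2 := by
          refine Finset.sum_le_sum fun i _ => ?_
          simp only [hB]
          rw [abs_div, abs_of_pos (by norm_num : (0 : ℝ) < 2)]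
          exact div_le_div_of_nonneg_right (abs_sub _ _) (by norm_num)
      _ = ((∑ i, |Ae i (2 * p)|) + ∑ i, |Ae i (2 * p + 1)|) / 2 := by
          rw [← Finset.sum_div, Finset.sum_add_distrib]
      _ ≤ t := by linarith [hAec (2 * p), hAec (2 * p + 1)]) (by
    intro i
    have hh : (Finset.univ.filter (fun j => A i j ≠ 0)).card ≤ k := by
      have := h3 i
      rwa [Set.ncard_eq_toFinset_card', Set.toFinset_ofPred] at this
    refine le_trans ?_ (hh.trans (by omega))
    have hcov : (supp (B i)).map Fin.valEmbedding ⊆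
        (Finset.univ.filter (fun j => A i j ≠ 0)).image (fun j : Fin n => (j : ℕ) / 2) := by
      intro p hp
      rw [Finset.mem_map] at hp
      obtain ⟨p', hp', rfl⟩ := hp
      rw [mem_supp] at hp'
      rw [Finset.mem_image]
      have h8 : Ae i (2 * p') ≠ 0 ∨ Ae i (2 * p' + 1) ≠ 0 := by
        by_contra hcon
        push Not at hcon
        apply hp'
        simp only [hB]
        rw [hcon.1, hcon.2]
        ring
      rcases h8 with h8 | h8
      · have h9 : 2 * (p' : ℕ) < n := by
          by_contra h10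
          exact h8 (hAe2 i _ (not_lt.mp h10))
        refine ⟨⟨2 * p', h9⟩, ?_, ?_⟩
        · rw [Finset.mem_filter]
          refine ⟨Finset.mem_univ _, ?_⟩
          rw [← hAe1]
          exact h8
        · show 2 * (p' : ℕ) / 2 = p'
          omega
      · have h9 : 2 * (p' : ℕ) + 1 < n := by
          by_contra h10
          exact h8 (hAe2 i _ (not_lt.mp h10))
        refine ⟨⟨2 * p' + 1, h9⟩, ?_, ?_⟩
        · rw [Finset.mem_filter]
          refine ⟨Finset.mem_univ _, ?_⟩
          rw [← hAe1]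
          exact h8
        · show (2 * (p' : ℕ) + 1) / 2 = p'
          omega
    calc (supp (B i)).card = ((supp (B i)).map Fin.valEmbedding).card := (Finset.card_map _).symm
      _ ≤ _ := Finset.card_le_card hcov
      _ ≤ (Finset.univ.filter (fun j => A i j ≠ 0)).card := Finset.card_image_le) (by
    intro p
    have hc : ∀ j, (supp (fun i => Ae i j)).card ≤ k := by
      intro j
      by_cases h : j < n
      · have e : supp (fun i => Ae i j) = supp (fun i => A i ⟨j, h⟩) := by
          congr 1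
          funext i
          simp only [hAe, dif_pos h]
        rw [e, supp_card]
        exact h4 _
      · have e : supp (fun i => Ae i j) = ∅ := by
          ext i
          rw [mem_supp, hAe2 i j (not_lt.mp h)]
          simp
        rw [e]; simp
    have hsub : supp (fun i => B i p) ⊆ supp (fun i => Ae i (2 * p)) ∪
        supp (fun i => Ae i (2 * p + 1)) := by
      intro i hi
      rw [mem_supp] at hi
      rw [Finset.mem_union, mem_supp, mem_supp]
      by_contra hcon
      push Not at hcon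
      apply hi
      simp only [hB]
      rw [hcon.1, hcon.2]
      ring
    calc (supp (fun i => B i p)).card ≤ _ := Finset.card_le_card hsub
      _ ≤ _ := Finset.card_union_le _ _
      _ ≤ 2 * k := by have := hc (2 * p); have := hc (2 * p + 1); omega)
  set z' : ℕ → ℝ := fun p => if h : p < N then z ⟨p, h⟩ else 1 with hz'
  have hz1 : ∀ p, z' p = 1 ∨ z' p = -1 := by
    intro p
    simp only [hz']
    split_ifs with h
    · exact hz _
    · exact Or.inl rfl
  have hye : ∀ j, ye z' j = 1 ∨ ye z' j = -1 := by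
    intro j
    unfold ye
    split_ifs
    · exact hz1 _
    · rcases hz1 (j / 2) with h | h <;> rw [h] <;> simp
  refine ⟨fun j => ye z' j, fun j => hye j, fun i => ?_, fun c => ?_⟩
  · have e1 : ∑ j : Fin n, A i j * ye z' j = 2 * ∑ p, B i p * z p := by
      have e2 : ∑ j : Fin n, A i j * ye z' j = ∑ j : Fin n, (fun j => Ae i j * ye z' j) (j : ℕ) := by
        refine Finset.sum_congr rfl fun j _ => ?_
        show A i j * ye z' j = Ae i j * ye z' j
        rw [hAe1]
      rw [e2, hsum (fun j => Ae i j * ye z' j) (fun j hj => by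
        show Ae i j * ye z' j = 0
        rw [hAe2 i j hj, zero_mul]),
        sum_pairs (fun j => Ae i j * ye z' j), ← Fin.sum_univ_eq_sum_range
          (fun p => Ae i (2 * p) * ye z' (2 * p) + Ae i (2 * p + 1) * ye z' (2 * p + 1)),
        Finset.mul_sum]
      refine Finset.sum_congr rfl fun p _ => ?_
      rw [ye_even, ye_odd]
      have e3 : z' (p : ℕ) = z p := by
        simp only [hz', p.2, dif_pos]
      rw [e3]
      simp only [hB]
      ring
    rw [e1, abs_mul, abs_of_pos (by norm_num : (0 : ℝ) < 2)]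
    set a := ∑ j, |A i j| with ha
    have ha0 : 0 ≤ a := Finset.sum_nonneg fun j _ => abs_nonneg _
    set X := t + a + (Real.log k) ^ (1 / κ) with hX
    have hLk : 0 ≤ (Real.log k) ^ (1 / κ) := Real.rpow_nonneg hlk _
    have hX0 : 0 ≤ X := by rw [hX]; linarith
    rcases Nat.lt_or_ge k 2 with hk | hk
    · have ha1 : a ≤ 1 := by
        have hh : (Finset.univ.filter (fun j => A i j ≠ 0)).card ≤ 1 := by
          have := h3 i
          rw [Set.ncard_eq_toFinset_card', Set.toFinset_ofPred] at this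
          omega
        calc a = ∑ j ∈ Finset.univ.filter (fun j => A i j ≠ 0), |A i j| := by
              rw [ha]
              symm
              refine Finset.sum_subset (Finset.filter_subset _ _) fun j _ hj => ?_
              have : A i j = 0 := by
                by_contra h0
                exact hj (Finset.mem_filter.mpr ⟨Finset.mem_univ _, h0⟩)
              rw [this, abs_zero]
          _ ≤ ∑ j ∈ Finset.univ.filter (fun j => A i j ≠ 0), (1 : ℝ) :=
              Finset.sum_le_sum fun j _ => h1 i j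
          _ ≤ 1 := by
              rw [Finset.sum_const, nsmul_eq_mul, mul_one]
              exact_mod_cast hh
      have tri : 2 * |∑ p, B i p * z p| ≤ a := by
        rw [show 2 * |∑ p, B i p * z p| = |∑ j : Fin n, A i j * ye z' j| by
          rw [e1, abs_mul, abs_of_pos (by norm_num : (0 : ℝ) < 2)]]
        refine (Finset.abs_sum_le_sum_abs _ _).trans (Finset.sum_le_sum fun j _ => ?_)
        rw [abs_mul]
        rcases hye j with h | h <;> rw [h] <;> simp
      have e2 : a ≤ Real.sqrt a := by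
        refine Real.le_sqrt_of_sq_le ?_
        nlinarith
      have e3 : Real.sqrt a ≤ Real.sqrt X := Real.sqrt_le_sqrt (by rw [hX]; linarith)
      calc 2 * |∑ p, B i p * z p| ≤ Real.sqrt X := tri.trans (e2.trans e3)
        _ = 1 * Real.sqrt X := (one_mul _).symm
        _ ≤ (2 * C * Real.sqrt (2 ^ (1 / κ)) + 1) * Real.sqrt X := by
            refine mul_le_mul_of_nonneg_right ?_ (Real.sqrt_nonneg _)
            have : 0 ≤ 2 * C * Real.sqrt (2 ^ (1 / κ)) := by positivity
            linarith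
    · have hk2 : (2 : ℝ) ≤ k := by exact_mod_cast hk
      have hlog : Real.log ((2 * k : ℕ) : ℝ) ≤ 2 * Real.log k := by
        push_cast
        rw [Real.log_mul (by norm_num) (by positivity)]
        have := Real.log_le_log (by norm_num) hk2
        linarith
      have hlog0 : 0 ≤ Real.log ((2 * k : ℕ) : ℝ) := Real.log_natCast_nonneg _
      have hpow : (Real.log ((2 * k : ℕ) : ℝ)) ^ (1 / κ) ≤ 2 ^ (1 / κ) * (Real.log k) ^ (1 / κ) := by
        rw [← Real.mul_rpow (by norm_num) hlk]
        exact Real.rpow_le_rpow hlog0 hlog (by positivity)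
      have h21 : (1 : ℝ) ≤ 2 ^ (1 / κ) := Real.one_le_rpow (by norm_num) (by positivity)
      have hle : t + ∑ p, |B i p| + (Real.log ((2 * k : ℕ) : ℝ)) ^ (1 / κ) ≤ 2 ^ (1 / κ) * X := by
        have := hrow i
        rw [hX]
        nlinarith
      have hs : Real.sqrt (t + ∑ p, |B i p| + (Real.log ((2 * k : ℕ) : ℝ)) ^ (1 / κ)) ≤
          Real.sqrt (2 ^ (1 / κ)) * Real.sqrt X := by
        rw [← Real.sqrt_mul (by positivity)]
        exact Real.sqrt_le_sqrt hle
      calc 2 * |∑ p, B i p * z p|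
          ≤ 2 * (C * Real.sqrt (t + ∑ p, |B i p| + (Real.log ((2 * k : ℕ) : ℝ)) ^ (1 / κ))) := by
            linarith [hb i]
        _ ≤ 2 * (C * (Real.sqrt (2 ^ (1 / κ)) * Real.sqrt X)) := by gcongr
        _ ≤ (2 * C * Real.sqrt (2 ^ (1 / κ)) + 1) * Real.sqrt X := by
            nlinarith [Real.sqrt_nonneg X]
  · have e1 : ∑ j ∈ univ.filter (fun j : Fin n => (j : ℕ) < c), ye z' j =
        ∑ j ∈ range (min c n), ye z' j := by
      rw [Finset.sum_filter]
      rw [Fin.sum_univ_eq_sum_range (fun j => if j < c then ye z' j else 0)]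
      rw [← Finset.sum_filter]
      refine Finset.sum_congr ?_ fun _ _ => rfl
      ext j
      simp only [Finset.mem_filter, Finset.mem_range]
      omega
    rw [e1]
    refine prefix_ye z' (fun p => ?_) _
    rcases hz1 p with h | h <;> rw [h] <;> simp

end Pool.Agent.R959.LD3
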