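import Pool.Agent.R959.LD3.Cor3
import Pool.Agent.H320R2.LD.OP

set_option autoImplicit false

/-!
# Consequences of `St_MAIN3`: set systems and vectors
-/

open Finset

namespace Pool.Agent.R959.LD3

open Pool.Agent.H320R2.LD Pool.Agent.R959.LD2

/-- set systems -/
theorem cor_bf (κ : ℝ) (hκ : 0 < κ) (h : St_MAIN3 1 κ) :
    ∃ C : ℝ, 0 < C ∧ ∀ (n m t k : ℕ) (S : Fin m → Finset (Fin n)),
      (∀ i : Fin n, (univ.filter (fun j : Fin m => i ∈ S j)).card ≤ t) →
      (∀ j : Fin m, (S j).card ≤ k) →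
      ∃ χ : Fin n → ℤ, (∀ i, χ i = 1 ∨ χ i = -1) ∧
        (∀ j : Fin m, ((|∑ i ∈ S j, χ i| : ℤ) : ℝ) ≤
          C * Real.sqrt ((t : ℝ) + ((S j).card : ℝ) + (Real.log k) ^ (1 / κ))) ∧
        ∀ c : ℕ, |∑ i ∈ univ.filter (fun i : Fin n => (i : ℕ) < c), χ i| ≤ 1 := by
  classical
  obtain ⟨C, hC, hc⟩ := cor_prefix κ hκ h
  set e : ℝ := 1 / κ with he
  have he0 : 0 < e := by positivity
  have hee : 0 < e ^ e := Real.rpow_pos_of_pos he0 _
  refine ⟨C * Real.sqrt (1 + e ^ e), by positivity, fun n m t k S h1 h2 => ?_⟩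
  set A : Fin m → Fin n → ℝ := fun j i => if i ∈ S j then 1 else 0 with hA
  have habs : ∀ j i, |A j i| = if i ∈ S j then 1 else 0 := by
    intro j i
    simp only [hA]
    split_ifs <;> simp
  have hne : ∀ j i, A j i ≠ 0 ↔ i ∈ S j := by
    intro j i
    simp only [hA]
    split_ifs with h <;> simp [h]
  have hrow : ∀ j, ∑ i, |A j i| = ((S j).card : ℝ) := by
    intro j
    simp only [habs]
    rw [Finset.sum_ite_mem, Finset.univ_inter, Finset.sum_const, nsmul_eq_mul, mul_one]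
  obtain ⟨y, hy, hb, hp⟩ := hc n m (max k t) t A (by
    intro j i
    rw [habs]
    split_ifs <;> simp) (by
    intro i
    have e : ∑ j, |A j i| = ((univ.filter (fun j : Fin m => i ∈ S j)).card : ℝ) := by
      simp only [habs]
      rw [Finset.sum_boole]
    rw [e]
    exact_mod_cast h1 i) (by
    intro j
    have e : {i | A j i ≠ 0} = ((S j : Finset (Fin n)) : Set (Fin n)) := by
      ext i
      simp only [Set.mem_ofPred_eq, hne, Finset.mem_coe]
    rw [e, Set.ncard_coe_finset]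
    exact (h2 j).trans (le_max_left _ _)) (by
    intro i
    have e : {j | A j i ≠ 0} = ((univ.filter (fun j : Fin m => i ∈ S j) : Finset (Fin m)) :
        Set (Fin m)) := by
      ext j
      simp only [Set.mem_ofPred_eq, hne, Finset.mem_coe, Finset.mem_filter, Finset.mem_univ,
        true_and]
    rw [e, Set.ncard_coe_finset]
    exact (h1 i).trans (le_max_right _ _))
  have e0 : ∀ i, (((if y i = 1 then 1 else -1 : ℤ)) : ℝ) = y i := by
    intro i
    rcases hy i with h | h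
    · rw [h]; simp
    · rw [h]; norm_num
  refine ⟨fun i => if y i = 1 then 1 else -1, fun i => ?_, fun j => ?_, fun c => ?_⟩
  · by_cases h : y i = 1
    · left; simp [h]
    · right; simp [h]
  · have e1 : ((∑ i ∈ S j, (if y i = 1 then 1 else -1 : ℤ) : ℤ) : ℝ) = ∑ i, A j i * y i := by
      rw [Int.cast_sum]
      simp only [e0, hA, ite_mul, one_mul, zero_mul]
      rw [Finset.sum_ite_mem, Finset.univ_inter]
    rw [Int.cast_abs, e1]
    refine (hb j).trans ?_
    rw [hrow, mul_assoc]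
    refine mul_le_mul_of_nonneg_left ?_ hC.le
    rw [← Real.sqrt_mul (by positivity)]
    refine Real.sqrt_le_sqrt ?_
    have hlk : 0 ≤ Real.log k := Real.log_natCast_nonneg k
    have hlt : 0 ≤ Real.log t := Real.log_natCast_nonneg t
    have hk0 : 0 ≤ (Real.log k) ^ e := Real.rpow_nonneg hlk _
    have ht0 : (0 : ℝ) ≤ t := Nat.cast_nonneg t
    have hs0 : (0 : ℝ) ≤ ((S j).card : ℝ) := Nat.cast_nonneg _
    have hlogt : (Real.log t) ^ e ≤ e ^ e * t := by
      rcases Nat.eq_zero_or_pos t with h0 | h0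
      · rw [h0]
        simp only [Nat.cast_zero, Real.log_zero, mul_zero]
        rw [Real.zero_rpow he0.ne']
      · have h3 := Real.log_le_rpow_div ht0 (ε := 1 / e) (by positivity)
        have h4 : (t : ℝ) ^ (1 / e) / (1 / e) = e * (t : ℝ) ^ (1 / e) := by
          rw [div_div_eq_mul_div, div_one]; ring
        rw [h4] at h3
        calc (Real.log t) ^ e ≤ (e * (t : ℝ) ^ (1 / e)) ^ e := Real.rpow_le_rpow hlt h3 he0.le
          _ = e ^ e * t := by
              rw [Real.mul_rpow he0.le (Real.rpow_nonneg ht0 _), ← Real.rpow_mul ht0]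
              field_simp
              rw [Real.rpow_one]
    have hmax : (Real.log ((max k t : ℕ) : ℝ)) ^ e ≤ (Real.log k) ^ e + e ^ e * t := by
      rcases max_choice k t with h5 | h5
      · rw [h5]
        have : 0 ≤ e ^ e * (t : ℝ) := by positivity
        linarith
      · rw [h5]
        linarith
    nlinarith
  · have e1 : ((∑ i ∈ univ.filter (fun i : Fin n => (i : ℕ) < c),
        (if y i = 1 then 1 else -1 : ℤ) : ℤ) : ℝ) =
        ∑ i ∈ univ.filter (fun i : Fin n => (i : ℕ) < c), y i := by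
      rw [Int.cast_sum]
      exact Finset.sum_congr rfl fun i _ => e0 i
    have h3 := hp c
    rw [← e1, ← Int.cast_abs] at h3
    exact_mod_cast h3

/-- vectors with small entries -/
theorem cor_kom (ν κ : ℝ) (h : St_MAIN3 ν κ) :
    ∃ C : ℝ, 0 < C ∧ ∀ δ : ℝ, 0 < δ → δ ≤ 1 →
      ∀ (d n : ℕ) (v : Fin n → EuclideanSpace ℝ (Fin d)),
      (∀ i, ‖v i‖ ≤ 1) → (∀ i k, |v i k| ≤ δ) →
      (∀ x : Fin n → ℝ, ∑ k, (∑ i, |v i k| * |x i|) ^ 2 / max 1 (∑ i, (v i k) ^ 2) ≤
        δ ^ (-2 * ν) * ∑ i, x i ^ 2) →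
      (∀ k, ({i | v i k ≠ 0}.ncard : ℝ) ≤ Real.exp (δ ^ (-2 * κ))) →
      (∀ i, ({k | v i k ≠ 0}.ncard : ℝ) ≤ Real.exp (δ ^ (-2 * κ))) →
      ∃ x : Fin n → ℝ, (∀ i, x i = 1 ∨ x i = -1) ∧
        ∀ k, |∑ i, x i * v i k| ≤ C * Real.sqrt (max 1 (∑ i, (v i k) ^ 2)) := by
  obtain ⟨C, hC, h⟩ := h
  refine ⟨C, hC, fun δ hδ hδ1 d n v h1 h2 h3 h4 h5 => ?_⟩
  have hδ2 : 0 < δ ^ 2 := by positivity
  have ht : (1 : ℝ) ≤ (δ ^ 2)⁻¹ := by
    rw [one_le_inv₀ hδ2]
    nlinarith
  have hpow : ∀ p : ℝ, ((δ ^ 2)⁻¹) ^ p = δ ^ (-2 * p) := by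
    intro p
    have e2 : (δ ^ 2)⁻¹ = δ ^ (-2 : ℝ) := by
      rw [Real.rpow_neg hδ.le]
      norm_num
    rw [e2, ← Real.rpow_mul hδ.le]
  set w : Fin d → ℝ := fun k => Real.sqrt (max 1 (∑ i, (v i k) ^ 2)) with hw
  have hm0 : ∀ k, (0 : ℝ) < max 1 (∑ i, (v i k) ^ 2) := fun k =>
    lt_of_lt_of_le one_pos (le_max_left _ _)
  have hw0 : ∀ k, 0 < w k := fun k => Real.sqrt_pos.2 (hm0 k)
  have hw2 : ∀ k, w k ^ 2 = max 1 (∑ i, (v i k) ^ 2) := fun k => Real.sq_sqrt (hm0 k).le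
  have hw21 : ∀ k, 1 ≤ w k ^ 2 := fun k => by rw [hw2]; exact le_max_left _ _
  have hsq : ∀ k i, (v i k / w k) ^ 2 ≤ (v i k) ^ 2 := by
    intro k i
    rw [div_pow]
    exact div_le_self (sq_nonneg _) (hw21 k)
  have hne : ∀ k i, v i k / w k ≠ 0 ↔ v i k ≠ 0 := by
    intro k i
    rw [div_ne_zero_iff]
    exact ⟨fun h => h.1, fun h => ⟨h, (hw0 k).ne'⟩⟩
  obtain ⟨x, hx1, hx2⟩ := h ((δ ^ 2)⁻¹) ht (Fin n) (Fin d) (fun k i => v i k / w k) (by
    refine ⟨fun R i => ?_, fun R => ?_, fun i => ?_, fun x => ?_, fun R => ?_, fun i => ?_⟩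
    · have h6 : (v i R) ^ 2 ≤ δ ^ 2 := by
        rw [← sq_abs]
        exact pow_le_pow_left₀ (abs_nonneg _) (h2 i R) 2
      calc (v i R / w R) ^ 2 * (δ ^ 2)⁻¹ ≤ δ ^ 2 * (δ ^ 2)⁻¹ :=
            mul_le_mul_of_nonneg_right ((hsq R i).trans h6) (by positivity)
        _ = 1 := mul_inv_cancel₀ (by positivity)
    · have e1 : ∑ i, (v i R / w R) ^ 2 = (∑ i, (v i R) ^ 2) / (w R) ^ 2 := by
        rw [Finset.sum_div]
        exact Finset.sum_congr rfl fun i _ => div_pow _ _ _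
      rw [e1, hw2, div_le_one (hm0 R)]
      exact le_max_right _ _
    · have h6 := h1 i
      have h7 : ‖v i‖ ^ 2 = ∑ k, (v i k) ^ 2 := by
        rw [EuclideanSpace.norm_sq_eq]
        exact Finset.sum_congr rfl fun k _ => by rw [Real.norm_eq_abs, sq_abs]
      calc ∑ k, (v i k / w k) ^ 2 ≤ ∑ k, (v i k) ^ 2 := Finset.sum_le_sum fun k _ => hsq k i
        _ = ‖v i‖ ^ 2 := h7.symm
        _ ≤ 1 := pow_le_one₀ (norm_nonneg _) h6
    · rw [hpow]
      refine le_trans (le_of_eq ?_) (h3 x)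
      refine Finset.sum_congr rfl fun k _ => ?_
      have e1 : ∑ i, |v i k / w k| * |x i| = (∑ i, |v i k| * |x i|) / w k := by
        rw [Finset.sum_div]
        refine Finset.sum_congr rfl fun i _ => ?_
        rw [abs_div, abs_of_pos (hw0 k)]
        ring
      rw [e1, div_pow, hw2]
    · rw [hpow]
      have e : ((supp (fun i => v i R / w R)).card : ℝ) = ({i | v i R ≠ 0}.ncard : ℝ) := by
        rw [supp_card]
        simp only [hne]
      rw [e]
      exact h4 R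
    · rw [hpow]
      have e : ((supp (fun R => v i R / w R)).card : ℝ) = ({k | v i k ≠ 0}.ncard : ℝ) := by
        rw [supp_card]
        simp only [hne]
      rw [e]
      exact h5 i)
  refine ⟨x, hx1, fun k => ?_⟩
  have h6 := hx2 k
  have e1 : ∑ i, v i k / w k * x i = (∑ i, x i * v i k) / w k := by
    rw [Finset.sum_div]
    exact Finset.sum_congr rfl fun i _ => by ring
  rw [e1, abs_div, abs_of_pos (hw0 k), div_le_iff₀ (hw0 k)] at h6
  exact h6

/-- vectors with small entries and polynomially many nonzero entries -/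
theorem cor_sparse (hM : ∀ ν κ : ℝ, 0 ≤ ν → 0 < κ → 9 * κ + ν < 2 → St_MAIN3 ν κ) (p : ℝ)
    (hp0 : 0 ≤ p) (hp : p < 4) :
    ∃ C : ℝ, 0 < C ∧ ∀ δ : ℝ, 0 < δ → δ ≤ 1 →
      ∀ (d n : ℕ) (v : Fin n → EuclideanSpace ℝ (Fin d)),
      (∀ i, ‖v i‖ ≤ 1) → (∀ i k, |v i k| ≤ δ) →
      (∀ k, ({i | v i k ≠ 0}.ncard : ℝ) ≤ δ ^ (-p)) →
      (∀ i, ({k | v i k ≠ 0}.ncard : ℝ) ≤ δ ^ (-p)) →
      ∃ x : Fin n → ℝ, (∀ i, x i = 1 ∨ x i = -1) ∧
        ∀ k, |∑ i, x i * v i k| ≤ C * Real.sqrt (max 1 (∑ i, (v i k) ^ 2)) := by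
  classical
  set ν : ℝ := p / 2 with hν
  set κ : ℝ := (2 - ν) / 18 with hκ
  have hν0 : 0 ≤ ν := by positivity
  have hν2 : ν < 2 := by rw [hν]; linarith
  have hκ0 : 0 < κ := by rw [hκ]; linarith
  obtain ⟨C, hC, h⟩ := cor_kom ν κ (hM ν κ hν0 hκ0 (by rw [hκ]; linarith))
  -- for large `t`
  set t1 : ℝ := (2 * ν / κ + 1) ^ (2 / κ) with ht1
  have hb1 : 1 ≤ 2 * ν / κ + 1 := by
    have : 0 ≤ 2 * ν / κ := by positivity
    linarith
  have ht11 : 1 ≤ t1 := Real.one_le_rpow hb1 (by positivity)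
  have hbig : ∀ t : ℝ, t1 ≤ t → t ^ ν ≤ Real.exp (t ^ κ) := by
    intro t ht
    have ht0 : 0 < t := by linarith
    rw [← Real.exp_log (Real.rpow_pos_of_pos ht0 ν), Real.log_rpow ht0]
    refine Real.exp_le_exp.mpr ?_
    have h1 := Real.log_le_rpow_div ht0.le (ε := κ / 2) (by positivity)
    have h2 : 2 * ν / κ ≤ t ^ (κ / 2) := by
      calc 2 * ν / κ ≤ 2 * ν / κ + 1 := by linarith
        _ = t1 ^ (κ / 2) := by
            have e3 : 2 / κ * (κ / 2) = 1 := by field_simp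
            rw [ht1, ← Real.rpow_mul (by linarith), e3, Real.rpow_one]
        _ ≤ t ^ (κ / 2) := Real.rpow_le_rpow (by linarith) ht (by positivity)
    have h3 : t ^ κ = t ^ (κ / 2) * t ^ (κ / 2) := by
      rw [← Real.rpow_add ht0]
      congr 1
      ring
    have h4 : 0 ≤ t ^ (κ / 2) := Real.rpow_nonneg ht0.le _
    calc ν * Real.log t ≤ ν * (t ^ (κ / 2) / (κ / 2)) := mul_le_mul_of_nonneg_left h1 hν0
      _ = (2 * ν / κ) * t ^ (κ / 2) := by field_simp
      _ ≤ t ^ (κ / 2) * t ^ (κ / 2) := mul_le_mul_of_nonneg_right h2 h4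
      _ = t ^ κ := h3.symm
  refine ⟨C + t1 ^ ν, by positivity, fun δ hδ hδ1 d n v h1 h2 h3 h4 => ?_⟩
  have hδ2 : 0 < δ ^ 2 := by positivity
  have hpow : ∀ p : ℝ, ((δ ^ 2)⁻¹) ^ p = δ ^ (-2 * p) := by
    intro p
    have e2 : (δ ^ 2)⁻¹ = δ ^ (-2 : ℝ) := by
      rw [Real.rpow_neg hδ.le]
      norm_num
    rw [e2, ← Real.rpow_mul hδ.le]
  have hpν : δ ^ (-p) = δ ^ (-2 * ν) := by
    congr 1
    rw [hν]; ring
  have hmax1 : ∀ k, (1 : ℝ) ≤ Real.sqrt (max 1 (∑ i, (v i k) ^ 2)) := fun k =>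
    Real.one_le_sqrt.2 (le_max_left _ _)
  rcases le_total t1 ((δ ^ 2)⁻¹) with hcase | hcase
  · have hexp : δ ^ (-p) ≤ Real.exp (δ ^ (-2 * κ)) := by
      rw [hpν, ← hpow, ← hpow]
      exact hbig _ hcase
    obtain ⟨x, hx1, hx2⟩ := h δ hδ hδ1 d n v h1 h2 (by
      intro x
      set w : Fin d → ℝ := fun k => Real.sqrt (max 1 (∑ i, (v i k) ^ 2)) with hw
      have hm0 : ∀ k, (0 : ℝ) < max 1 (∑ i, (v i k) ^ 2) := fun k =>
        lt_of_lt_of_le one_pos (le_max_left _ _)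
      have hw0 : ∀ k, 0 < w k := fun k => Real.sqrt_pos.2 (hm0 k)
      have hw2 : ∀ k, w k ^ 2 = max 1 (∑ i, (v i k) ^ 2) := fun k => Real.sq_sqrt (hm0 k).le
      have hw21 : ∀ k, 1 ≤ w k ^ 2 := fun k => by rw [hw2]; exact le_max_left _ _
      have hne : ∀ k i, v i k / w k ≠ 0 ↔ v i k ≠ 0 := by
        intro k i
        rw [div_ne_zero_iff]
        exact ⟨fun h => h.1, fun h => ⟨h, (hw0 k).ne'⟩⟩
      have hop := prove_OP (Fin n) (Fin d) (fun k i => v i k / w k) (δ ^ (-p)) 1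
        (Real.rpow_nonneg hδ.le _) zero_le_one (by
          intro k
          have e : (Finset.univ.filter (fun i => v i k / w k ≠ 0)).card = {i | v i k ≠ 0}.ncard := by
            rw [Set.ncard_eq_toFinset_card', Set.toFinset_ofPred]
            simp only [hne]
          rw [e]
          exact h3 k) (by
          intro i
          have e : (Finset.univ.filter (fun k => v i k / w k ≠ 0)).card = {k | v i k ≠ 0}.ncard := by
            rw [Set.ncard_eq_toFinset_card', Set.toFinset_ofPred]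
            simp only [hne]
          rw [e]
          exact h4 i) (by
          intro k
          have e1 : ∑ i, (v i k / w k) ^ 2 = (∑ i, (v i k) ^ 2) / (w k) ^ 2 := by
            rw [Finset.sum_div]
            exact Finset.sum_congr rfl fun i _ => div_pow _ _ _
          rw [e1, hw2, div_le_one (hm0 k)]
          exact le_max_right _ _) (by
          intro i
          have h7 : ‖v i‖ ^ 2 = ∑ k, (v i k) ^ 2 := by
            rw [EuclideanSpace.norm_sq_eq]
            exact Finset.sum_congr rfl fun k _ => by rw [Real.norm_eq_abs, sq_abs]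
          calc ∑ k, (v i k / w k) ^ 2 ≤ ∑ k, (v i k) ^ 2 := Finset.sum_le_sum fun k _ => by
                rw [div_pow]
                exact div_le_self (sq_nonneg _) (hw21 k)
            _ = ‖v i‖ ^ 2 := h7.symm
            _ ≤ 1 := pow_le_one₀ (norm_nonneg _) (h1 i)) x
      rw [Real.sqrt_one, mul_one, hpν] at hop
      refine le_trans (le_of_eq ?_) hop
      refine Finset.sum_congr rfl fun k _ => ?_
      have e1 : ∑ i, |v i k / w k| * |x i| = (∑ i, |v i k| * |x i|) / w k := by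
        rw [Finset.sum_div]
        refine Finset.sum_congr rfl fun i _ => ?_
        rw [abs_div, abs_of_pos (hw0 k)]
        ring
      rw [e1, div_pow, hw2]) (fun k => (h3 k).trans hexp) (fun i => (h4 i).trans hexp)
    refine ⟨x, hx1, fun k => (hx2 k).trans ?_⟩
    refine mul_le_mul_of_nonneg_right ?_ (Real.sqrt_nonneg _)
    have : 0 ≤ t1 ^ ν := Real.rpow_nonneg (by linarith) _
    linarith
  · refine ⟨fun _ => 1, fun _ => Or.inl rfl, fun k => ?_⟩
    have h6 : |∑ i, (1 : ℝ) * v i k| ≤ ({i | v i k ≠ 0}.ncard : ℝ) := by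
      rw [Set.ncard_eq_toFinset_card', Set.toFinset_ofPred]
      calc |∑ i, (1 : ℝ) * v i k| ≤ ∑ i, |v i k| := by
            refine (Finset.abs_sum_le_sum_abs _ _).trans (le_of_eq ?_)
            exact Finset.sum_congr rfl fun i _ => by rw [one_mul]
        _ = ∑ i ∈ Finset.univ.filter (fun i => v i k ≠ 0), |v i k| := by
            symm
            refine Finset.sum_subset (Finset.filter_subset _ _) fun i _ hi => ?_
            have : v i k = 0 := by
              by_contra h0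
              exact hi (Finset.mem_filter.mpr ⟨Finset.mem_univ _, h0⟩)
            rw [this, abs_zero]
        _ ≤ ∑ i ∈ Finset.univ.filter (fun i => v i k ≠ 0), (1 : ℝ) :=
            Finset.sum_le_sum fun i _ => (h2 i k).trans hδ1
        _ = _ := by rw [Finset.sum_const, nsmul_eq_mul, mul_one]
    have h7 : δ ^ (-p) ≤ t1 ^ ν := by
      rw [hpν, ← hpow]
      exact Real.rpow_le_rpow (by positivity) hcase hν0
    have h8 : 0 ≤ t1 ^ ν := Real.rpow_nonneg (by linarith) _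
    calc |∑ i, (1 : ℝ) * v i k| ≤ t1 ^ ν := h6.trans ((h3 k).trans h7)
      _ ≤ (C + t1 ^ ν) * 1 := by linarith
      _ ≤ (C + t1 ^ ν) * Real.sqrt (max 1 (∑ i, (v i k) ^ 2)) :=
          mul_le_mul_of_nonneg_left (hmax1 k) (by linarith)

end Pool.Agent.R959.LD3
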