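import Pool.Agent.R959.LD3.Cor4

set_option autoImplicit false

/-!
# All set systems of bounded degree

Long sets are cut into pieces of size at most `k ≈ t exp (2 t ^ κ)`.
-/

open Finset

namespace Pool.Agent.R959.LD3

/-- rank of `i` in `S` -/
def rk {n : ℕ} (S : Finset (Fin n)) (i : Fin n) : ℕ := (S.filter (fun i' => i' < i)).card

theorem rk_lt {n : ℕ} (S : Finset (Fin n)) (i j : Fin n) (hi : i ∈ S) (hij : i < j) :
    rk S i < rk S j := by
  unfold rk
  apply Finset.card_lt_card
  refine ⟨?_, ?_⟩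
  · intro x hx
    rw [Finset.mem_filter] at hx ⊢
    exact ⟨hx.1, hx.2.trans hij⟩
  · intro h
    have h1 : i ∈ S.filter (fun i' => i' < j) := Finset.mem_filter.mpr ⟨hi, hij⟩
    have h2 := h h1
    rw [Finset.mem_filter] at h2
    exact lt_irrefl _ h2.2

theorem rk_inj {n : ℕ} (S : Finset (Fin n)) : Set.InjOn (rk S) S := by
  intro i hi j hj h
  rcases lt_trichotomy i j with h1 | h1 | h1
  · exact absurd h (rk_lt S i j hi h1).ne
  · exact h1
  · exact absurd h.symm (rk_lt S j i hj h1).ne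

theorem rk_lt_card {n : ℕ} (S : Finset (Fin n)) (i : Fin n) (hi : i ∈ S) : rk S i < S.card := by
  unfold rk
  apply Finset.card_lt_card
  refine ⟨Finset.filter_subset _ _, fun h => ?_⟩
  have := h hi
  rw [Finset.mem_filter] at this
  exact lt_irrefl _ this.2

/-- pieces -/
def piece {n : ℕ} (S : Finset (Fin n)) (k p : ℕ) : Finset (Fin n) :=
  S.filter (fun i => rk S i / k = p)

theorem piece_card {n : ℕ} (S : Finset (Fin n)) (k p : ℕ) (hk : 0 < k) :
    (piece S k p).card ≤ k := by
  have h1 : ((piece S k p).image (rk S)).card = (piece S k p).card := by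
    apply Finset.card_image_of_injOn
    intro i hi j hj h
    exact rk_inj S (Finset.mem_filter.mp hi).1 (Finset.mem_filter.mp hj).1 h
  rw [← h1]
  have h2 : (piece S k p).image (rk S) ⊆ Finset.Ico (p * k) (p * k + k) := by
    intro r hr
    rw [Finset.mem_image] at hr
    obtain ⟨i, hi, rfl⟩ := hr
    have h3 := (Finset.mem_filter.mp hi).2
    rw [Finset.mem_Ico]
    have h4 := Nat.div_add_mod (rk S i) k
    have h5 := Nat.mod_lt (rk S i) hk
    rw [h3] at h4
    constructor
    · rw [← h4, mul_comm]; omega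
    · rw [← h4, mul_comm]; omega
  refine (Finset.card_le_card h2).trans ?_
  rw [Nat.card_Ico]
  omega

theorem piece_small {n : ℕ} (S : Finset (Fin n)) (k : ℕ) (h : S.card ≤ k) : piece S k 0 = S := by
  unfold piece
  apply Finset.filter_true_of_mem
  intro i hi
  exact Nat.div_eq_of_lt ((rk_lt_card S i hi).trans_le h)

theorem sum_piece {n : ℕ} (S : Finset (Fin n)) (k : ℕ) (f : Fin n → ℤ) :
    ∑ i ∈ S, f i = ∑ p ∈ Finset.range (S.card / k + 1), ∑ i ∈ piece S k p, f i := by
  have := Finset.sum_fiberwise_of_maps_to (s := S) (t := Finset.range (S.card / k + 1))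
    (g := fun i => rk S i / k) (by
      intro i hi
      rw [Finset.mem_range]
      have := Nat.div_le_div_right (c := k) (rk_lt_card S i hi).le
      omega) f
  rw [← this]
  rfl

theorem sqrt_add_le (x y : ℝ) (hx : 0 ≤ x) (hy : 0 ≤ y) :
    Real.sqrt (x + y) ≤ Real.sqrt x + Real.sqrt y := by
  rw [Real.sqrt_le_iff]
  refine ⟨by positivity, ?_⟩
  have h1 := Real.sq_sqrt hx
  have h2 := Real.sq_sqrt hy
  have h3 : 0 ≤ Real.sqrt x * Real.sqrt y := by positivity
  nlinarith

theorem cor_all (κ : ℝ) (hκ : 0 < κ) (h : St_MAIN3 1 κ) :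
    ∃ C : ℝ, 0 < C ∧ ∀ (n m t : ℕ) (S : Fin m → Finset (Fin n)), 1 ≤ t →
      (∀ i : Fin n, (univ.filter (fun j : Fin m => i ∈ S j)).card ≤ t) →
      ∃ χ : Fin n → ℤ, (∀ i, χ i = 1 ∨ χ i = -1) ∧
        (∀ j : Fin m, ((|∑ i ∈ S j, χ i| : ℤ) : ℝ) ≤
          C * (Real.sqrt t + Real.sqrt (S j).card +
            (S j).card * Real.exp (-((t : ℝ) ^ κ)))) ∧
        ∀ c : ℕ, |∑ i ∈ univ.filter (fun i : Fin n => (i : ℕ) < c), χ i| ≤ 1 := by
  classical
  obtain ⟨C, hC, hc⟩ := cor_bf κ hκ h
  set c2 : ℝ := (3 + 1 / κ) ^ (1 / κ) with hc2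
  have hc20 : 0 < c2 := by positivity
  set C1 : ℝ := C * Real.sqrt (1 + c2) + C with hC1
  set C2 : ℝ := 2 * C * Real.sqrt (2 + c2) with hC2
  refine ⟨C1 + C2, by positivity, fun n m t S ht hdeg => ?_⟩
  have htr : (1 : ℝ) ≤ t := by exact_mod_cast ht
  have ht0 : (0 : ℝ) < t := by linarith
  set T : ℝ := (t : ℝ) ^ κ with hT
  have hT1 : 1 ≤ T := Real.one_le_rpow htr hκ.le
  have hT0 : 0 < T := by linarith
  set k : ℕ := ⌈(t : ℝ) * Real.exp (2 * T)⌉₊ with hk
  have hkge : (t : ℝ) * Real.exp (2 * T) ≤ k := Nat.le_ceil _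
  have hexp1 : 1 ≤ Real.exp (2 * T) := Real.one_le_exp (by positivity)
  have hte : 1 ≤ (t : ℝ) * Real.exp (2 * T) := by nlinarith
  have hk2 : (k : ℝ) ≤ 2 * ((t : ℝ) * Real.exp (2 * T)) := by
    have : (k : ℝ) < (t : ℝ) * Real.exp (2 * T) + 1 := Nat.ceil_lt_add_one (by positivity)
    linarith
  have hk1 : (1 : ℝ) ≤ k := hte.trans hkge
  have hk0 : 0 < k := by exact_mod_cast (lt_of_lt_of_le one_pos hk1)
  have hk0r : (0 : ℝ) < k := by linarith
  have htk : (t : ℝ) ≤ k := by nlinarith
  have hlogk : Real.log k ≤ (3 + 1 / κ) * T := by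
    have h1 : Real.log k ≤ Real.log (2 * ((t : ℝ) * Real.exp (2 * T))) :=
      Real.log_le_log hk0r hk2
    rw [Real.log_mul (by norm_num) (by positivity), Real.log_mul (by positivity) (by positivity),
      Real.log_exp] at h1
    have h2 : Real.log 2 ≤ 1 := by
      have := Real.log_le_sub_one_of_pos (show (0:ℝ) < 2 by norm_num)
      linarith
    have h3 : Real.log t ≤ T / κ := Real.log_le_rpow_div ht0.le hκ
    have h4 : (3 + 1 / κ) * T = 3 * T + T / κ := by ring
    rw [h4]
    linarith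
  have hlogk0 : 0 ≤ Real.log k := Real.log_natCast_nonneg k
  have hL : (Real.log k) ^ (1 / κ) ≤ c2 * t := by
    calc (Real.log k) ^ (1 / κ) ≤ ((3 + 1 / κ) * T) ^ (1 / κ) :=
          Real.rpow_le_rpow hlogk0 hlogk (by positivity)
      _ = c2 * t := by
          rw [Real.mul_rpow (by positivity) hT0.le, hT, ← Real.rpow_mul ht0.le,
            mul_one_div_cancel hκ.ne', Real.rpow_one]
  -- the refined system
  set P : Fin (m * (n + 1)) → Finset (Fin n) := fun w =>
    piece (S (finProdFinEquiv.symm w).1) k (finProdFinEquiv.symm w).2 with hP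
  obtain ⟨χ, hχ1, hχ2, hχ3⟩ := hc n (m * (n + 1)) t k P (by
    intro i
    have hinj : Set.InjOn (fun w : Fin (m * (n + 1)) => (finProdFinEquiv.symm w).1)
        (univ.filter (fun w => i ∈ P w) : Finset (Fin (m * (n + 1)))) := by
      intro w hw w' hw' heq
      have h1 := (Finset.mem_filter.mp hw).2
      have h2 := (Finset.mem_filter.mp hw').2
      simp only [hP, piece, Finset.mem_filter] at h1 h2
      simp only at heq
      have h3 : ((finProdFinEquiv.symm w).2 : ℕ) = (finProdFinEquiv.symm w').2 := by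
        rw [← h1.2, ← h2.2, heq]
      have h4 : finProdFinEquiv.symm w = finProdFinEquiv.symm w' :=
        Prod.ext heq (Fin.ext h3)
      exact finProdFinEquiv.symm.injective h4
    refine le_trans ?_ (hdeg i)
    refine Finset.card_le_card_of_injOn _ ?_ hinj
    intro w hw
    have h1 := (Finset.mem_filter.mp hw).2
    simp only [hP, piece, Finset.mem_filter] at h1
    exact Finset.mem_filter.mpr ⟨Finset.mem_univ _, h1.1⟩) (by
    intro w
    exact piece_card _ _ _ hk0)
  refine ⟨χ, hχ1, fun j => ?_, hχ3⟩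
  have hcardn : (S j).card ≤ n := by
    simpa using Finset.card_le_univ (S j)
  have hpc : ∀ p ∈ Finset.range ((S j).card / k + 1),
      ((|∑ i ∈ piece (S j) k p, χ i| : ℤ) : ℝ) ≤
        C * Real.sqrt ((t : ℝ) + ((piece (S j) k p).card : ℝ) + (Real.log k) ^ (1 / κ)) := by
    intro p hp
    have hpn : p < n + 1 := by
      rw [Finset.mem_range] at hp
      have := Nat.div_le_self (S j).card k
      omega
    have := hχ2 (finProdFinEquiv (j, ⟨p, hpn⟩))
    simp only [hP, Equiv.symm_apply_apply] at this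
    exact this
  have hs0 : (0 : ℝ) ≤ ((S j).card : ℝ) := Nat.cast_nonneg _
  have hsq1 : 0 ≤ Real.sqrt t := Real.sqrt_nonneg _
  have hsq2 : 0 ≤ Real.sqrt ((S j).card : ℝ) := Real.sqrt_nonneg _
  have hex : 0 ≤ ((S j).card : ℝ) * Real.exp (-T) := by positivity
  have hC10 : 0 ≤ C1 := by positivity
  have hC20 : 0 ≤ C2 := by positivity
  rcases le_or_gt (S j).card k with hcase | hcase
  · -- one piece
    have h1 := hpc 0 (Finset.mem_range.mpr (Nat.succ_pos _))
    rw [piece_small _ _ hcase] at h1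
    refine h1.trans ?_
    have h2 : Real.sqrt ((t : ℝ) + ((S j).card : ℝ) + (Real.log k) ^ (1 / κ)) ≤
        Real.sqrt (1 + c2) * Real.sqrt t + Real.sqrt ((S j).card : ℝ) := by
      rw [← Real.sqrt_mul (by positivity)]
      refine le_trans (Real.sqrt_le_sqrt ?_) (sqrt_add_le _ _ (by positivity) hs0)
      nlinarith
    calc C * Real.sqrt ((t : ℝ) + ((S j).card : ℝ) + (Real.log k) ^ (1 / κ))
        ≤ C * (Real.sqrt (1 + c2) * Real.sqrt t + Real.sqrt ((S j).card : ℝ)) :=
          mul_le_mul_of_nonneg_left h2 hC.le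
      _ ≤ C1 * (Real.sqrt t + Real.sqrt ((S j).card : ℝ)) := by
          rw [hC1]
          have h5 : 0 ≤ C * Real.sqrt (1 + c2) * Real.sqrt ((S j).card : ℝ) := by positivity
          have h6 : 0 ≤ C * Real.sqrt t := by positivity
          nlinarith
      _ ≤ (C1 + C2) * (Real.sqrt t + Real.sqrt ((S j).card : ℝ) +
            ((S j).card : ℝ) * Real.exp (-T)) := by
          apply mul_le_mul (by linarith) (by linarith) (by positivity) (by positivity)
  · -- many pieces
    have hcr : (k : ℝ) ≤ ((S j).card : ℝ) := by exact_mod_cast hcase.le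
    have h1 : ((|∑ i ∈ S j, χ i| : ℤ) : ℝ) ≤
        ∑ p ∈ Finset.range ((S j).card / k + 1), ((|∑ i ∈ piece (S j) k p, χ i| : ℤ) : ℝ) := by
      rw [sum_piece (S j) k χ]
      have := Finset.abs_sum_le_sum_abs (fun p => ∑ i ∈ piece (S j) k p, χ i)
        (Finset.range ((S j).card / k + 1))
      exact_mod_cast this
    have h2 : ∀ p ∈ Finset.range ((S j).card / k + 1),
        ((|∑ i ∈ piece (S j) k p, χ i| : ℤ) : ℝ) ≤ C * (Real.sqrt (2 + c2) * Real.sqrt k) := by
      intro p hp
      refine (hpc p hp).trans (mul_le_mul_of_nonneg_left ?_ hC.le)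
      rw [← Real.sqrt_mul (by positivity)]
      refine Real.sqrt_le_sqrt ?_
      have h3 : ((piece (S j) k p).card : ℝ) ≤ k := by exact_mod_cast piece_card _ _ _ hk0
      nlinarith
    have h3 := Finset.sum_le_sum h2
    rw [Finset.sum_const, Finset.card_range, nsmul_eq_mul] at h3
    have h4 : (((S j).card / k + 1 : ℕ) : ℝ) ≤ 2 * (((S j).card : ℝ) / k) := by
      push_cast
      have h5 : (((S j).card / k : ℕ) : ℝ) ≤ ((S j).card : ℝ) / k := Nat.cast_div_le
      have h6 : 1 ≤ ((S j).card : ℝ) / k := by rw [le_div_iff₀ hk0r]; linarith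
      linarith
    have h5 : Real.sqrt k / k ≤ Real.exp (-T) := by
      have e1 : Real.sqrt k * Real.sqrt k = k := Real.mul_self_sqrt hk0r.le
      have e2 : 0 < Real.sqrt k := Real.sqrt_pos.2 hk0r
      have e3 : Real.exp T ≤ Real.sqrt k := by
        apply Real.le_sqrt_of_sq_le
        calc Real.exp T ^ 2 = Real.exp (2 * T) := by
              rw [← Real.exp_nat_mul]; push_cast; ring_nf
          _ ≤ (t : ℝ) * Real.exp (2 * T) := le_mul_of_one_le_left (by positivity) htr
          _ ≤ k := hkge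
      rw [div_le_iff₀ hk0r]
      calc Real.sqrt k = Real.exp (-T) * Real.exp T * Real.sqrt k := by
            rw [← Real.exp_add, neg_add_cancel, Real.exp_zero, one_mul]
        _ ≤ Real.exp (-T) * Real.sqrt k * Real.sqrt k := by gcongr
        _ = Real.exp (-T) * k := by rw [mul_assoc, e1]
    calc ((|∑ i ∈ S j, χ i| : ℤ) : ℝ)
        ≤ (((S j).card / k + 1 : ℕ) : ℝ) * (C * (Real.sqrt (2 + c2) * Real.sqrt k)) := h1.trans h3
      _ ≤ 2 * (((S j).card : ℝ) / k) * (C * (Real.sqrt (2 + c2) * Real.sqrt k)) :=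
          mul_le_mul_of_nonneg_right h4 (by positivity)
      _ = C2 * (((S j).card : ℝ) * (Real.sqrt k / k)) := by rw [hC2]; ring
      _ ≤ C2 * (((S j).card : ℝ) * Real.exp (-T)) := by gcongr
      _ ≤ (C1 + C2) * (Real.sqrt t + Real.sqrt ((S j).card : ℝ) +
            ((S j).card : ℝ) * Real.exp (-T)) := by
          apply mul_le_mul (by linarith) (by linarith) hex (by positivity)

end Pool.Agent.R959.LD3
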