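import Pool.Agent.R959.LD2.Defs

set_option autoImplicit false

/-!
# Bounded discrepancy of matrices with small entries and long rows: definitions and tasks

Variant of `Pool.Agent.R959.LD2` without the extra rows: the hypothesis on the `l1` norms is
replaced by a bound for the operator norm of the matrix of absolute values, and rows and columns
may have up to `exp (t ^ κ)` nonzero entries. The exponents are parameters: `ν` for the square of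
the operator norm, `κ` for the supports, `σ` for the row mass at the end of the iteration, with
`0 < κ < σ` and `3 κ + ν / 2 + 3 σ / 2 < 1`.
-/

open MeasureTheory ProbabilityTheory

namespace Pool.Agent.R959.LD3

open Pool.Agent.H320R2.LD Pool.Agent.R959.LD2

noncomputable section

/-- admissible matrices -/
def Adm3 {V W : Type} [Fintype V] [Fintype W] (ν κ t : ℝ) (A : W → V → ℝ) : Prop :=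
  (∀ R v, A R v ^ 2 * t ≤ 1) ∧ (∀ R, ∑ v, A R v ^ 2 ≤ 1) ∧ (∀ v, ∑ R, A R v ^ 2 ≤ 1) ∧
    (∀ x : V → ℝ, ∑ R, (∑ v, |A R v| * |x v|) ^ 2 ≤ t ^ ν * nsq x) ∧
    (∀ R, ((supp (A R)).card : ℝ) ≤ Real.exp (t ^ κ)) ∧
    (∀ v, ((supp (fun R => A R v)).card : ℝ) ≤ Real.exp (t ^ κ))

/-- PARAM3: the parameters of one phase. -/
def St_PARAM3 (ν κ σ : ℝ) : Prop := ∀ (M c : ℝ), 0 < M → 0 < c → ∃ t0 : ℝ, 2 ≤ t0 ∧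
  ∀ t : ℝ, t0 ≤ t → ∀ s : ℝ, t ^ (-σ) ≤ s → s ≤ 1 → ∀ D : ℕ, D = ⌊Real.exp (t ^ κ)⌋₊ →
  ∃ (w0 α q qb ε : ℝ) (m : ℕ),
    1000 ≤ t ∧ 1 ≤ m ∧ 0 < w0 ∧ w0 ≤ 1 / 1000 ∧ 2 * (1 + 2 * M) ≤ q ∧ w0 ≤ q⁻¹ ∧ 0 < α ∧ α ≤ 1 ∧
    8 * α ^ 2 * q ^ 4 * (t ^ ν / s) ≤ 1 ∧ 0 < qb ∧ qb ≤ 1 ∧ 0 < ε ∧
    (2 * (D : ℝ) ^ 2) ^ (4 * m) * Real.exp (-(m : ℝ) * q ^ 2 / (4 * M ^ 2)) ≤ qb ^ 2 ∧
    (ε + 2 * qb) * (1000 * Real.exp (t ^ κ)) ≤ 1 ∧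
    4 * (Real.exp (-(c * (s * t))) + 2 * Real.exp (-((w0⁻¹) ^ 4 / M ^ 2))
      + D * (2 * qb + 2 * Real.exp (-(ε ^ 2 * Real.exp (4 * α * m) / (16 * M ^ 2)))))
      * (((D ^ 2 + 1) ^ (2 * (4 * m) + 1) : ℕ) : ℝ) ≤ 1

/-- PHASE3: one phase. -/
def St_PHASE3 (ν κ σ : ℝ) : Prop := ∃ C t0 : ℝ, 0 < C ∧ 2 ≤ t0 ∧ ∀ (t s : ℝ), t0 ≤ t →
  t ^ (-σ) ≤ s → s ≤ 1 → ∀ (V W : Type) [Fintype V] [Fintype W]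
  (A : W → V → ℝ) (a : V → ℝ), Adm3 ν κ t A → (∀ v, |a v| ≤ 1) → (∀ R, Phi A a R ≤ s) →
  ∃ a' : V → ℝ, (∀ v, |a' v| ≤ 1) ∧ (∀ R, Phi A a' R ≤ 4/5 * s) ∧
    ∀ R, |∑ v, A R v * (a' v - a v)| ≤ C * s ^ (1/4 : ℝ)

/-- ITER3: iteration of the phases. -/
def St_ITER3 (ν κ σ : ℝ) : Prop := ∃ C t0 : ℝ, 0 < C ∧ 2 ≤ t0 ∧ ∀ (t : ℝ), t0 ≤ t →
  ∀ (V W : Type) [Fintype V] [Fintype W] (A : W → V → ℝ), Adm3 ν κ t A →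
  ∃ a : V → ℝ, (∀ v, |a v| ≤ 1) ∧ (∀ R, Phi A a R ≤ t ^ (-σ)) ∧
    ∀ R, |∑ v, A R v * a v| ≤ C

/-- ROUND3: the final rounding. -/
def St_ROUND3 (ν κ σ : ℝ) : Prop := ∃ t0 : ℝ, 2 ≤ t0 ∧ ∀ (t : ℝ), t0 ≤ t →
  ∀ (V W : Type) [Fintype V] [Fintype W] (A : W → V → ℝ) (a : V → ℝ), Adm3 ν κ t A →
  (∀ v, |a v| ≤ 1) → (∀ R, ∑ v, A R v ^ 2 * (1 - |a v|) ≤ t ^ (-σ)) →
  ∃ x : V → ℝ, (∀ v, x v = 1 ∨ x v = -1) ∧ ∀ R, |∑ v, A R v * (x v - a v)| ≤ 10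

/-- MAIN3: discrepancy of admissible matrices. -/
def St_MAIN3 (ν κ : ℝ) : Prop := ∃ C : ℝ, 0 < C ∧ ∀ (t : ℝ), 1 ≤ t →
  ∀ (V W : Type) [Fintype V] [Fintype W] (A : W → V → ℝ), Adm3 ν κ t A →
  ∃ x : V → ℝ, (∀ v, x v = 1 ∨ x v = -1) ∧ ∀ R, |∑ v, A R v * x v| ≤ C

end

end Pool.Agent.R959.LD3
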