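import Pool.Agent.R959.LD3.Defs

set_option autoImplicit false

/-! The parameters of one phase (helper865). -/

open Filter

namespace Pool.Agent.R959.LD3

namespace PARAM3

lemma ev (a b C : ℝ) (h : a < b) : ∀ᶠ t : ℝ in atTop, C * t ^ a ≤ t ^ b := by
  have h1 := (tendsto_rpow_atTop (sub_pos.mpr h)).eventually_ge_atTop C
  filter_upwards [h1, eventually_gt_atTop 0] with t ht ht0
  calc C * t ^ a ≤ t ^ (b - a) * t ^ a :=
        mul_le_mul_of_nonneg_right ht (Real.rpow_nonneg ht0.le _)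
    _ = t ^ b := by rw [← Real.rpow_add ht0]; congr 1; ring

lemma ev0 (b C : ℝ) (h : 0 < b) : ∀ᶠ t : ℝ in atTop, C ≤ t ^ b :=
  (tendsto_rpow_atTop h).eventually_ge_atTop C

lemma ev_exp (a C : ℝ) (ha : 0 < a) (hC : 0 < C) :
    ∀ᶠ t : ℝ in atTop, C * t ≤ Real.exp (2 * t ^ a) := by
  have h1 := (tendsto_rpow_mul_exp_neg_mul_atTop_nhds_zero (1/a) 2 (by norm_num)).comp
    (tendsto_rpow_atTop ha)
  have h2 := h1.eventually (Iio_mem_nhds (show (0:ℝ) < 1/C by positivity))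
  filter_upwards [h2, eventually_gt_atTop 0] with t ht ht0
  have e : (t ^ a) ^ (1/a) = t := by
    rw [← Real.rpow_mul ht0.le, mul_one_div_cancel ha.ne', Real.rpow_one]
  have ht' : (t ^ a) ^ (1/a) * Real.exp (-2 * t ^ a) < 1 / C := ht
  rw [e, lt_div_iff₀ hC] at ht'
  have hp := Real.exp_pos (2 * t ^ a)
  have h3 : Real.exp (-2 * t ^ a) * Real.exp (2 * t ^ a) = 1 := by
    rw [← Real.exp_add]; simp
  have h4 := mul_le_mul_of_nonneg_right ht'.le hp.le
  calc C * t = t * (Real.exp (-2 * t ^ a) * Real.exp (2 * t ^ a)) * C := by rw [h3]; ring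
    _ = t * Real.exp (-2 * t ^ a) * C * Real.exp (2 * t ^ a) := by ring
    _ ≤ 1 * Real.exp (2 * t ^ a) := h4
    _ = _ := one_mul _

lemma exp3 : (4:ℝ) ≤ Real.exp 3 := by
  have := Real.add_one_le_exp (3:ℝ)
  linarith

end PARAM3

set_option maxHeartbeats 4000000 in
open PARAM3 in
theorem prove_PARAM3 (ν κ σ : ℝ) (hν : 0 ≤ ν) (hκ : 0 < κ) (hκσ : κ < σ)
    (h : 3 * κ + ν / 2 + 3 * σ / 2 < 1) : St_PARAM3 ν κ σ := by
  intro M c hM hc
  set e : ℝ := (1 - 3 * κ - ν / 2 - 3 * σ / 2) / 20 with he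
  have he0 : 0 < e := by rw [he]; linarith
  have he1 : 20 * e = 1 - 3 * κ - ν / 2 - 3 * σ / 2 := by rw [he]; ring
  set γ : ℝ := κ / 2 + e with hγ
  have hγ0 : 0 < γ := by linarith
  have hγ4 : γ ≤ 1 / 4 := by linarith
  set β : ℝ := 2 * γ + ν / 2 + σ / 2 + e with hβ
  have hβ0 : 0 < β := by linarith
  set μ : ℝ := β + κ + e with hμ
  have hμ0 : 0 < μ := by linarith
  set ω : ℝ := μ + κ + e with hω
  have hμσ : μ + κ < 1 - σ := by linarith
  have E1 := ev0 γ (2 * (1 + 2 * M)) hγ0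
  have E2 := ev0 (1/4) 1000 (by norm_num)
  have E3 := ev0 (2 * e) 8 (by linarith)
  have E4 := ev κ (2 * γ) (96 * M ^ 2) (by linarith)
  have E5 := ev ω (μ + 2 * γ) (16 * M ^ 2) (by linarith)
  have E6 := ev (μ + κ) (1 - σ) (61 / c) hμσ
  have E7 := ev (μ + κ) 1 (61 * M ^ 2) (by linarith)
  have E8 := ev (μ + κ) ω 61 (by linarith)
  have E9 := ev_exp (κ + e) (61 * (256 * 10 ^ 6 * M ^ 2)) (by linarith) (by positivity)
  have Eall := (E1.and (E2.and (E3.and (E4.and (E5.and (E6.and (E7.and (E8.and E9))))))))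
  obtain ⟨t1, ht1⟩ := eventually_atTop.mp Eall
  refine ⟨max t1 1000, le_trans (by norm_num) (le_max_right _ _), ?_⟩
  intro t ht s hs1 hs2 D hD
  obtain ⟨F1, F2, F3, F4, F5, F6, F7, F8, F9⟩ := ht1 t ((le_max_left _ _).trans ht)
  have ht1000 : 1000 ≤ t := (le_max_right _ _).trans ht
  have ht0 : 0 < t := by linarith
  have htge : 1 ≤ t := by linarith
  rw [Real.rpow_one] at F7
  set B : ℝ := t ^ (μ + κ) with hB
  have hB1 : 1 ≤ B := Real.one_le_rpow htge (by linarith)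
  have hκB : t ^ κ ≤ B := Real.rpow_le_rpow_of_exponent_le htge (by linarith)
  have hκ1 : 1 ≤ t ^ κ := Real.one_le_rpow htge hκ.le
  have hμ1 : 1 ≤ t ^ μ := Real.one_le_rpow htge hμ0.le
  have hs0 : 0 < s := lt_of_lt_of_le (Real.rpow_pos_of_pos ht0 _) hs1
  set m : ℕ := ⌈t ^ μ⌉₊ with hm
  have hm1 : t ^ μ ≤ m := Nat.le_ceil _
  have hm2 : (m : ℝ) ≤ 2 * t ^ μ := by
    have := Nat.ceil_lt_add_one (a := t ^ μ) (by positivity)
    linarith
  have hm3 : 1 ≤ m := by
    have : (1:ℝ) ≤ (m:ℝ) := by linarith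
    exact_mod_cast this
  have hDle : (D : ℝ) ≤ Real.exp (t ^ κ) := by
    rw [hD]
    exact Nat.floor_le (Real.exp_pos _).le
  have hD2 : (D : ℝ) ^ 2 ≤ Real.exp (2 * t ^ κ) := by
    calc (D : ℝ) ^ 2 ≤ (Real.exp (t ^ κ)) ^ 2 := by gcongr
      _ = Real.exp (2 * t ^ κ) := by rw [← Real.exp_nat_mul]; norm_num
  have h2e : 2 * Real.exp (2 * t ^ κ) ≤ Real.exp (3 * t ^ κ) := by
    have h1 : (2:ℝ) ≤ Real.exp (t ^ κ) := by
      have := Real.add_one_le_exp (t ^ κ)
      linarith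
    calc 2 * Real.exp (2 * t ^ κ) ≤ Real.exp (t ^ κ) * Real.exp (2 * t ^ κ) := by gcongr
      _ = Real.exp (3 * t ^ κ) := by rw [← Real.exp_add]; congr 1; ring
  set α : ℝ := t ^ (-β) with hα
  set q : ℝ := t ^ γ with hq
  set w0 : ℝ := t ^ (-(1/4) : ℝ) with hw0
  set qb : ℝ := Real.exp (-t ^ ω) with hqb
  set ε : ℝ := Real.exp (-t ^ κ) / 4000 with hε
  have hw0pos : 0 < w0 := Real.rpow_pos_of_pos ht0 _
  have hαpos : 0 < α := Real.rpow_pos_of_pos ht0 _
  have hqpos : 0 < q := Real.rpow_pos_of_pos ht0 _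
  have hwinv : w0⁻¹ = t ^ (1/4 : ℝ) := by
    rw [hw0, Real.rpow_neg ht0.le, inv_inv]
  have hw4 : (w0⁻¹) ^ 4 = t := by
    rw [hwinv, ← Real.rpow_natCast, ← Real.rpow_mul ht0.le]
    norm_num
  have hωpos : 0 < t ^ ω := Real.rpow_pos_of_pos ht0 _
  have hexp60 : Real.exp (-60 * B) ≤ 1 / 4000 := by
    have h1 : Real.exp (-60 * B) ≤ Real.exp (-60) := Real.exp_le_exp.mpr (by linarith)
    refine h1.trans ?_
    rw [Real.exp_neg, one_div]
    apply inv_anti₀ (by norm_num)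
    have h2 : Real.exp 60 = (Real.exp 3) ^ 20 := by rw [← Real.exp_nat_mul]; norm_num
    rw [h2]
    calc (4000:ℝ) ≤ 4 ^ 20 := by norm_num
      _ ≤ (Real.exp 3) ^ 20 := pow_le_pow_left₀ (by norm_num) exp3 20
  -- D * qb
  have hDqb : Real.exp (t ^ κ) * qb ≤ Real.exp (-60 * B) := by
    rw [hqb, ← Real.exp_add]
    apply Real.exp_le_exp.mpr
    linarith
  -- the number of chains
  have hchain : (((D ^ 2 + 1) ^ (2 * (4 * m) + 1) : ℕ) : ℝ) ≤ Real.exp (51 * B) := by
    push_cast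
    have h1 : (D : ℝ) ^ 2 + 1 ≤ Real.exp (3 * t ^ κ) := by
      have h3 : (1:ℝ) ≤ Real.exp (2 * t ^ κ) := Real.one_le_exp (by positivity)
      linarith
    calc ((D : ℝ) ^ 2 + 1) ^ (2 * (4 * m) + 1) ≤ (Real.exp (3 * t ^ κ)) ^ (2 * (4 * m) + 1) :=
          pow_le_pow_left₀ (by positivity) h1 _
      _ = Real.exp (((2 * (4 * m) + 1 : ℕ) : ℝ) * (3 * t ^ κ)) := by rw [← Real.exp_nat_mul]
      _ ≤ Real.exp (51 * B) := by
          apply Real.exp_le_exp.mpr
          push_cast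
          have h5 : 2 * (4 * (m:ℝ)) + 1 ≤ 17 * t ^ μ := by linarith
          have h6 : B = t ^ μ * t ^ κ := by rw [hB, Real.rpow_add ht0]
          rw [h6]
          calc (2 * (4 * (m:ℝ)) + 1) * (3 * t ^ κ) ≤ (17 * t ^ μ) * (3 * t ^ κ) := by gcongr
            _ = 51 * (t ^ μ * t ^ κ) := by ring
  refine ⟨w0, α, q, qb, ε, m, ht1000, hm3, hw0pos, ?_, F1, ?_, hαpos, ?_, ?_, Real.exp_pos _, ?_,
    by positivity, ?_, ?_, ?_⟩
  · have h1 : w0 = (t ^ (1/4 : ℝ))⁻¹ := by rw [← hwinv, inv_inv]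
    calc w0 = (t ^ (1/4 : ℝ))⁻¹ := h1
      _ ≤ (1000:ℝ)⁻¹ := inv_anti₀ (by norm_num) F2
      _ = 1 / 1000 := by norm_num
  · rw [hw0, hq, ← Real.rpow_neg ht0.le]
    exact Real.rpow_le_rpow_of_exponent_le htge (by linarith)
  · exact Real.rpow_le_one_of_one_le_of_nonpos htge (by linarith)
  · have h1 : t ^ ν / s ≤ t ^ (ν + σ) := by
      rw [div_le_iff₀ hs0]
      calc t ^ ν = t ^ (ν + σ) * t ^ (-σ) := by rw [← Real.rpow_add ht0]; congr 1; ring
        _ ≤ t ^ (ν + σ) * s := by gcongr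
    have h2 : α ^ 2 = t ^ (-2 * β) := by
      rw [hα, ← Real.rpow_natCast, ← Real.rpow_mul ht0.le]
      congr 1; push_cast; ring
    have h3 : q ^ 4 = t ^ (4 * γ) := by
      rw [hq, ← Real.rpow_natCast, ← Real.rpow_mul ht0.le]
      congr 1; push_cast; ring
    calc 8 * α ^ 2 * q ^ 4 * (t ^ ν / s) ≤ 8 * α ^ 2 * q ^ 4 * t ^ (ν + σ) := by gcongr
      _ = 8 * (t ^ (-2 * β) * t ^ (4 * γ) * t ^ (ν + σ)) := by rw [h2, h3]; ring
      _ = 8 * t ^ (-(2 * e)) := by
          rw [← Real.rpow_add ht0, ← Real.rpow_add ht0]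
          congr 2
          rw [hβ]; ring
      _ ≤ 1 := by
          rw [Real.rpow_neg ht0.le, ← div_eq_mul_inv]
          exact (div_le_one (by positivity)).mpr F3
  · exact Real.exp_le_one_iff.mpr (by linarith)
  · -- clause 9
    have h1 : (2 * (D:ℝ) ^ 2) ^ (4 * m) ≤ Real.exp (12 * m * t ^ κ) := by
      calc (2 * (D:ℝ) ^ 2) ^ (4 * m) ≤ (Real.exp (3 * t ^ κ)) ^ (4 * m) := by
            apply pow_le_pow_left₀ (by positivity)
            linarith
        _ = Real.exp (((4 * m : ℕ) : ℝ) * (3 * t ^ κ)) := by rw [← Real.exp_nat_mul]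
        _ = Real.exp (12 * m * t ^ κ) := by congr 1; push_cast; ring
    have h2 : qb ^ 2 = Real.exp (-(2 * t ^ ω)) := by
      rw [hqb, ← Real.exp_nat_mul]; congr 1; push_cast; ring
    rw [h2]
    calc (2 * (D:ℝ) ^ 2) ^ (4 * m) * Real.exp (-(m : ℝ) * q ^ 2 / (4 * M ^ 2))
        ≤ Real.exp (12 * m * t ^ κ) * Real.exp (-(m : ℝ) * q ^ 2 / (4 * M ^ 2)) := by gcongr
      _ = Real.exp (12 * m * t ^ κ + -(m : ℝ) * q ^ 2 / (4 * M ^ 2)) := by rw [Real.exp_add]
      _ ≤ Real.exp (-(2 * t ^ ω)) := by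
          apply Real.exp_le_exp.mpr
          have h3 : q ^ 2 = t ^ (2 * γ) := by
            rw [hq, ← Real.rpow_natCast, ← Real.rpow_mul ht0.le]
            congr 1; push_cast; ring
          have h4 : t ^ (μ + 2 * γ) = t ^ μ * t ^ (2 * γ) := Real.rpow_add ht0 _ _
          rw [h4] at F5
          set Q : ℝ := t ^ (2 * γ) with hQ
          have hQ0 : 0 < Q := Real.rpow_pos_of_pos ht0 _
          have h5 : 12 * (m:ℝ) * t ^ κ ≤ (m:ℝ) * Q / (8 * M ^ 2) := by
            rw [le_div_iff₀ (by positivity)]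
            calc 12 * (m:ℝ) * t ^ κ * (8 * M ^ 2) = (m:ℝ) * (96 * M ^ 2 * t ^ κ) := by ring
              _ ≤ (m:ℝ) * Q := by gcongr
          have h6 : 2 * t ^ ω ≤ (m:ℝ) * Q / (8 * M ^ 2) := by
            rw [le_div_iff₀ (by positivity)]
            calc 2 * t ^ ω * (8 * M ^ 2) = 16 * M ^ 2 * t ^ ω := by ring
              _ ≤ t ^ μ * Q := F5
              _ ≤ (m:ℝ) * Q := by gcongr
          have h7 : -(m : ℝ) * q ^ 2 / (4 * M ^ 2) =
              -((m:ℝ) * Q / (8 * M ^ 2)) - (m:ℝ) * Q / (8 * M ^ 2) := by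
            rw [h3]; field_simp; ring
          rw [h7]
          linarith
  · -- clause 10
    have h1 : ε * (1000 * Real.exp (t ^ κ)) = 1 / 4 := by
      rw [hε]
      have h3 : Real.exp (-t ^ κ) * Real.exp (t ^ κ) = 1 := by
        rw [← Real.exp_add]; simp
      calc Real.exp (-t ^ κ) / 4000 * (1000 * Real.exp (t ^ κ)) =
            (Real.exp (-t ^ κ) * Real.exp (t ^ κ)) / 4 := by ring
        _ = 1 / 4 := by rw [h3]
    calc (ε + 2 * qb) * (1000 * Real.exp (t ^ κ))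
        = ε * (1000 * Real.exp (t ^ κ)) + 2000 * (Real.exp (t ^ κ) * qb) := by ring
      _ ≤ 1 / 4 + 2000 * (1 / 4000) := by
          rw [h1]
          have := hDqb.trans hexp60
          linarith
      _ ≤ 1 := by norm_num
  · -- clause 11
    have hBpos : 0 < B := by linarith
    have a1 : Real.exp (-(c * (s * t))) ≤ Real.exp (-60 * B) := by
      apply Real.exp_le_exp.mpr
      have h1 : t ^ (1 - σ) ≤ s * t := by
        calc t ^ (1 - σ) = t ^ (-σ) * t := by
              rw [show (1 - σ) = -σ + 1 by ring, Real.rpow_add ht0, Real.rpow_one]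
          _ ≤ s * t := by gcongr
      have h2 : 61 * B ≤ c * t ^ (1 - σ) := by
        have := mul_le_mul_of_nonneg_left F6 hc.le
        calc 61 * B = c * (61 / c * B) := by field_simp
          _ ≤ _ := this
      have h3 : c * t ^ (1 - σ) ≤ c * (s * t) := by gcongr
      linarith
    have a2 : Real.exp (-((w0⁻¹) ^ 4 / M ^ 2)) ≤ Real.exp (-60 * B) := by
      apply Real.exp_le_exp.mpr
      rw [hw4]
      have h1 : 61 * B ≤ t / M ^ 2 := by
        rw [le_div_iff₀ (by positivity)]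
        calc 61 * B * M ^ 2 = 61 * M ^ 2 * B := by ring
          _ ≤ t := F7
      linarith
    have a3 : (D:ℝ) * qb ≤ Real.exp (-60 * B) :=
      (mul_le_mul_of_nonneg_right hDle (Real.exp_pos _).le).trans hDqb
    have a4 : (D:ℝ) * Real.exp (-(ε ^ 2 * Real.exp (4 * α * m) / (16 * M ^ 2))) ≤
        Real.exp (-60 * B) := by
      have h1 : 61 * B ≤ ε ^ 2 * Real.exp (4 * α * m) / (16 * M ^ 2) := by
        have h2 : 4 * t ^ (κ + e) ≤ 4 * α * m := by
          have h3 : t ^ (κ + e) = α * t ^ μ := by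
            rw [hα, ← Real.rpow_add ht0]; congr 1; rw [hμ]; ring
          rw [h3]
          calc 4 * (α * t ^ μ) = 4 * α * t ^ μ := by ring
            _ ≤ 4 * α * m := by gcongr
        have h4 : ε ^ 2 = Real.exp (-(2 * t ^ κ)) / (16 * 10 ^ 6) := by
          rw [hε, div_pow, ← Real.exp_nat_mul]
          congr 1
          · congr 1; push_cast; ring
          · norm_num
        have h5 : t ^ κ ≤ t ^ (κ + e) := Real.rpow_le_rpow_of_exponent_le htge (by linarith)
        have h6 : Real.exp (2 * t ^ (κ + e)) ≤ Real.exp (-(2 * t ^ κ)) * Real.exp (4 * α * m) := by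
          rw [← Real.exp_add]
          apply Real.exp_le_exp.mpr
          linarith
        have h7 : B ≤ t := by
          rw [hB]
          calc t ^ (μ + κ) ≤ t ^ (1:ℝ) := Real.rpow_le_rpow_of_exponent_le htge (by linarith)
            _ = t := Real.rpow_one t
        rw [le_div_iff₀ (by positivity), h4]
        have h8 : 61 * (256 * 10 ^ 6 * M ^ 2) * B ≤ 61 * (256 * 10 ^ 6 * M ^ 2) * t := by gcongr
        have h9 : 61 * (256 * 10 ^ 6 * M ^ 2) * B ≤
            Real.exp (-(2 * t ^ κ)) * Real.exp (4 * α * m) := h8.trans (F9.trans h6)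
        calc 61 * B * (16 * M ^ 2) = (61 * (256 * 10 ^ 6 * M ^ 2) * B) / (16 * 10 ^ 6) := by ring
          _ ≤ (Real.exp (-(2 * t ^ κ)) * Real.exp (4 * α * m)) / (16 * 10 ^ 6) := by gcongr
          _ = Real.exp (-(2 * t ^ κ)) / (16 * 10 ^ 6) * Real.exp (4 * α * m) := by ring
      refine (mul_le_mul_of_nonneg_right hDle (Real.exp_pos _).le).trans ?_
      rw [← Real.exp_add]
      apply Real.exp_le_exp.mpr
      exact (add_le_add hκB (neg_le_neg h1)).trans (le_of_eq (by ring))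
    have hsum : 4 * (Real.exp (-(c * (s * t))) + 2 * Real.exp (-((w0⁻¹) ^ 4 / M ^ 2))
        + D * (2 * qb + 2 * Real.exp (-(ε ^ 2 * Real.exp (4 * α * m) / (16 * M ^ 2))))) ≤
        28 * Real.exp (-60 * B) := by
      have : (D:ℝ) * (2 * qb + 2 * Real.exp (-(ε ^ 2 * Real.exp (4 * α * m) / (16 * M ^ 2)))) =
          2 * ((D:ℝ) * qb) +
          2 * ((D:ℝ) * Real.exp (-(ε ^ 2 * Real.exp (4 * α * m) / (16 * M ^ 2)))) := by ring
      rw [this]
      have b1 := mul_le_mul_of_nonneg_left a2 (zero_le_two (α := ℝ))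
      have b2 := mul_le_mul_of_nonneg_left a3 (zero_le_two (α := ℝ))
      have b3 := mul_le_mul_of_nonneg_left a4 (zero_le_two (α := ℝ))
      have b4 := add_le_add (add_le_add a1 b1) (add_le_add b2 b3)
      have b5 := mul_le_mul_of_nonneg_left b4 (show (0:ℝ) ≤ 4 by norm_num)
      exact b5.trans (le_of_eq (by ring))
    calc _ ≤ 28 * Real.exp (-60 * B) * Real.exp (51 * B) :=
          mul_le_mul hsum hchain (Nat.cast_nonneg _) (by positivity)
      _ = 28 * Real.exp (-9 * B) := by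
          rw [mul_assoc, ← Real.exp_add]; congr 2; ring
      _ ≤ 28 * (1 / 64) := by
          have h1 : Real.exp (-9 * B) ≤ Real.exp (-9) := Real.exp_le_exp.mpr (by linarith)
          have h2 : Real.exp (-9) ≤ 1 / 64 := by
            rw [Real.exp_neg, one_div]
            apply inv_anti₀ (by norm_num)
            have h3 : Real.exp 9 = (Real.exp 3) ^ 3 := by rw [← Real.exp_nat_mul]; norm_num
            rw [h3]
            calc (64:ℝ) = 4 ^ 3 := by norm_num
              _ ≤ (Real.exp 3) ^ 3 := pow_le_pow_left₀ (by norm_num) exp3 3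
          linarith
      _ ≤ 1 := by norm_num

end Pool.Agent.R959.LD3
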