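import Pool.Agent.R959.LD3.Defs
import Pool.Agent.H320R2.LD.ROUND

set_option autoImplicit false

/-! The final rounding (helper865), adapted from `Pool.Agent.H320R2.LD.ROUND`. -/

open MeasureTheory ProbabilityTheory

namespace Pool.Agent.R959.LD3

open Pool.Agent.H320R2.LD Pool.Agent.H320R2.LD.ROUND Pool.Agent.R959.LD2

theorem prove_ROUND3 (hL : St_LLL) (ν κ σ : ℝ) (hκ : 0 < κ) (hκσ : κ < σ) (hκ2 : κ < 1/2) :
    St_ROUND3 ν κ σ := by
  classical
  set κ1 : ℝ := (κ + min σ (1/2)) / 2 with hκ1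
  have hm1 : κ < min σ (1/2) := lt_min hκσ hκ2
  have k1 : κ < κ1 := by rw [hκ1]; linarith
  have k2 : κ1 < σ := by
    have := min_le_left σ (1/2 : ℝ)
    rw [hκ1]; linarith
  have k3 : κ1 < 1/2 := by
    have := min_le_right σ (1/2 : ℝ)
    rw [hκ1]; linarith
  have k0 : 0 < κ1 := by linarith
  have hev : ∀ᶠ t : ℝ in Filter.atTop, 2 ≤ t ^ (1/2 - κ1) :=
    (tendsto_rpow_atTop (by linarith)).eventually_ge_atTop 2
  obtain ⟨t1, ht1'⟩ := Filter.eventually_atTop.mp hev
  refine ⟨max t1 2, le_max_right _ _, ?_⟩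
  intro t ht V W _ _ A a hA ha hsum
  obtain ⟨hA1, hA2, hA3, hAop, hA4, hA5⟩ := hA
  have hb := ht1' t ((le_max_left _ _).trans ht)
  have ht2 : 2 ≤ t := (le_max_right _ _).trans ht
  have ht0 : 0 < t := by linarith
  have ht1 : 1 ≤ t := by linarith
  set lam := t ^ κ1 with hlam
  have hlam1 : 1 ≤ lam := Real.one_le_rpow ht1 k0.le
  have hlam0 : 0 < lam := by linarith
  have hκlam : t ^ κ ≤ lam := Real.rpow_le_rpow_of_exponent_le ht1 k1.le
  haveI : ∀ v, IsProbabilityMeasure (nu (a v)) := fun v => nu_prob _ (ha v)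
  have hlb : 2 * lam ≤ Real.sqrt t := by
    rw [Real.sqrt_eq_rpow]
    calc 2 * lam ≤ t ^ (1/2 - κ1) * t ^ κ1 := mul_le_mul_of_nonneg_right hb hlam0.le
      _ = t ^ (1/2 : ℝ) := by rw [← Real.rpow_add ht0]; congr 1; ring
  have hsm : ∀ R v, |lam * A R v| ≤ 1 / 2 := by
    intro R v
    have h1 := hA1 R v
    have h2 : |A R v| * Real.sqrt t ≤ 1 := by
      have : (|A R v| * Real.sqrt t) ^ 2 ≤ 1 := by
        rw [mul_pow, sq_abs, Real.sq_sqrt ht0.le]; exact h1
      exact (sq_le_one_iff₀ (by positivity)).mp this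
    rw [abs_mul, abs_of_pos hlam0]
    have h3 : |A R v| * (2 * lam) ≤ 1 := le_trans (mul_le_mul_of_nonneg_left hlb (abs_nonneg _)) h2
    linarith
  have hls : lam * t ^ (-σ) ≤ 1 := by
    rw [hlam, ← Real.rpow_add ht0]
    exact Real.rpow_le_one_of_one_le_of_nonpos ht1 (by linarith)
  have key : ∀ R, ∀ θ : ℝ, (θ = 1 ∨ θ = -1) → (Measure.pi fun v => nu (a v)).real
      {x | 10 < ∑ v, (θ * A R v) * (sg (x v) - a v)} ≤ Real.exp (-8 * lam) := by
    intro R θ hθ
    have hθ2 : θ ^ 2 = 1 := by rcases hθ with h | h <;> rw [h] <;> norm_num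
    have hθa : |θ| = 1 := by rcases hθ with h | h <;> rw [h] <;> norm_num
    refine (tail a (fun v => θ * A R v) ha lam 10 hlam0 ?_).trans ?_
    · intro v
      have := hsm R v
      rw [show lam * (θ * A R v) = θ * (lam * A R v) by ring, abs_mul, hθa, one_mul]
      exact this
    · apply Real.exp_le_exp.mpr
      have h1 : ∑ v, 2 * (lam * (θ * A R v)) ^ 2 * (1 - |a v|)
          = 2 * lam ^ 2 * ∑ v, A R v ^ 2 * (1 - |a v|) := by
        rw [Finset.mul_sum]
        refine Finset.sum_congr rfl fun v _ => ?_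
        rw [show 2 * (lam * (θ * A R v)) ^ 2 * (1 - |a v|)
          = 2 * lam ^ 2 * (θ ^ 2) * (A R v ^ 2 * (1 - |a v|)) by ring, hθ2]; ring
      rw [h1]
      have h2 := hsum R
      have h3 : 2 * lam ^ 2 * ∑ v, A R v ^ 2 * (1 - |a v|) ≤ 2 * lam ^ 2 * t ^ (-σ) :=
        mul_le_mul_of_nonneg_left h2 (by positivity)
      have h4 : 2 * lam ^ 2 * t ^ (-σ) ≤ 2 * lam := by
        calc 2 * lam ^ 2 * t ^ (-σ) = 2 * lam * (lam * t ^ (-σ)) := by ring
          _ ≤ 2 * lam * 1 := mul_le_mul_of_nonneg_left hls (by positivity)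
          _ = 2 * lam := by ring
      linarith
  set S : W → Finset V := fun R => supp (A R) with hS
  set E : W → Set (V → ℝ) := fun R => {x | 10 < |∑ v, A R v * (sg (x v) - a v)|} with hE
  have hEm : ∀ R, MeasurableSet (E R) := by
    intro R
    exact measurableSet_lt measurable_const ((meas_sum a (fun v => A R v)).abs)
  have hEp : ∀ R, (Measure.pi fun v => nu (a v)).real (E R) ≤ 2 * Real.exp (-8 * lam) := by
    intro R
    have h1 := key R 1 (Or.inl rfl)
    have h2 := key R (-1) (Or.inr rfl)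
    have hsub : E R ⊆ {x | 10 < ∑ v, (1 * A R v) * (sg (x v) - a v)}
        ∪ {x | 10 < ∑ v, (-1 * A R v) * (sg (x v) - a v)} := by
      intro x hx
      simp only [hE, Set.mem_setOf_eq] at hx
      rcases lt_abs.mp hx with h | h
      · left
        simp only [Set.mem_setOf_eq, one_mul]; exact h
      · right
        simp only [Set.mem_setOf_eq]
        have : ∑ v, (-1 * A R v) * (sg (x v) - a v) = -∑ v, A R v * (sg (x v) - a v) := by
          rw [← Finset.sum_neg_distrib]; exact Finset.sum_congr rfl fun v _ => by ring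
        rw [this]; exact h
    calc (Measure.pi fun v => nu (a v)).real (E R)
        ≤ (Measure.pi fun v => nu (a v)).real ({x | 10 < ∑ v, (1 * A R v) * (sg (x v) - a v)}
        ∪ {x | 10 < ∑ v, (-1 * A R v) * (sg (x v) - a v)}) :=
          measureReal_mono hsub (measure_ne_top _ _)
      _ ≤ _ := measureReal_union_le _ _
      _ ≤ 2 * Real.exp (-8 * lam) := by linarith
  have hcard : ∀ R, ((Finset.univ.filter (fun R' => ¬ Disjoint (S R) (S R'))).card : ℝ)
      ≤ Real.exp (2 * t ^ κ) := by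
    intro R
    have hsub : Finset.univ.filter (fun R' => ¬ Disjoint (S R) (S R'))
        ⊆ (S R).biUnion fun v => supp (fun R' => A R' v) := by
      intro R' hR'
      simp only [Finset.mem_filter, Finset.mem_univ, true_and] at hR'
      rw [Finset.not_disjoint_iff] at hR'
      obtain ⟨v, hv1, hv2⟩ := hR'
      rw [Finset.mem_biUnion]
      refine ⟨v, hv1, ?_⟩
      rw [mem_supp]
      exact (mem_supp _ _).mp hv2
    have h1 : ((Finset.univ.filter (fun R' => ¬ Disjoint (S R) (S R'))).card : ℝ)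
        ≤ ∑ v ∈ S R, ((supp (fun R' => A R' v)).card : ℝ) := by
      exact_mod_cast (Finset.card_le_card hsub).trans Finset.card_biUnion_le
    have h2 : ∑ v ∈ S R, ((supp (fun R' => A R' v)).card : ℝ)
        ≤ ∑ v ∈ S R, Real.exp (t ^ κ) := Finset.sum_le_sum fun v _ => hA5 v
    rw [Finset.sum_const, nsmul_eq_mul] at h2
    have h3 : ((S R).card : ℝ) ≤ Real.exp (t ^ κ) := hA4 R
    have h4 : ((S R).card : ℝ) * Real.exp (t ^ κ) ≤ Real.exp (t ^ κ) * Real.exp (t ^ κ) :=
      mul_le_mul_of_nonneg_right h3 (Real.exp_pos _).le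
    have h5 : Real.exp (t ^ κ) * Real.exp (t ^ κ) = Real.exp (2 * t ^ κ) := by
      rw [← Real.exp_add]; congr 1; ring
    linarith
  have hN : 1 ≤ ⌊Real.exp (2 * t ^ κ)⌋₊ := by
    apply Nat.le_floor
    rw [Nat.cast_one]
    exact Real.one_le_exp (by positivity)
  obtain ⟨x, hx⟩ := hL V W (fun v => nu (a v)) E S hEm (by
      intro R x y hxy hx
      simp only [hE, Set.mem_setOf_eq] at hx ⊢
      have : ∑ v, A R v * (sg (y v) - a v) = ∑ v, A R v * (sg (x v) - a v) := by
        refine Finset.sum_congr rfl fun v _ => ?_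
        by_cases h : A R v = 0
        · rw [h]; ring
        · rw [hxy v ((mem_supp _ _).mpr h)]
      rw [this]; exact hx)
    (2 * Real.exp (-8 * lam)) ⌊Real.exp (2 * t ^ κ)⌋₊ (by positivity) hN hEp
    (by
      intro R
      apply Nat.le_floor
      have := hcard R
      convert this using 3)
    (by
      have h1 : (⌊Real.exp (2 * t ^ κ)⌋₊ : ℝ) ≤ Real.exp (2 * t ^ κ) :=
        Nat.floor_le (Real.exp_pos _).le
      have h3 : (0:ℝ) ≤ 4 * (2 * Real.exp (-8 * lam)) := by positivity
      refine (mul_le_mul_of_nonneg_left h1 h3).trans ?_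
      have h4 : Real.exp (-8 * lam) * Real.exp (2 * t ^ κ) ≤ Real.exp (-6) := by
        rw [← Real.exp_add]
        apply Real.exp_le_exp.mpr
        linarith
      have h5 : Real.exp (-6) ≤ 1 / 16 := by
        rw [Real.exp_neg, one_div]
        apply inv_anti₀ (by norm_num)
        have h6 : (4:ℝ) ≤ Real.exp 3 := by
          have := Real.add_one_le_exp (3:ℝ)
          linarith
        have h7 : Real.exp 6 = Real.exp 3 * Real.exp 3 := by rw [← Real.exp_add]; norm_num
        rw [h7]
        nlinarith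
      have h8 : 4 * (2 * Real.exp (-8 * lam)) * Real.exp (2 * t ^ κ) =
          8 * (Real.exp (-8 * lam) * Real.exp (2 * t ^ κ)) := by ring
      rw [h8]
      linarith)
  refine ⟨fun v => sg (x v), fun v => sg_pm _, fun R => ?_⟩
  have := hx R
  simp only [hE, Set.mem_setOf_eq, not_lt] at this
  exact this

end Pool.Agent.R959.LD3
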