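import Pool.Agent.R959.LD3.Chain3
import Pool.Agent.R959.LD3.ROUND3
import Pool.Agent.R959.LD3.PARAM3
import Pool.Agent.R959.LD3.Cor5

set_option autoImplicit false

namespace Pool.Agent.R959.LD3

open Pool.Agent.H320R2.LD

/-- The discrepancy of admissible matrices is bounded, for `9 κ + ν < 2`. -/
theorem main3 (ν κ : ℝ) (hν : 0 ≤ ν) (hκ : 0 < κ) (h : 9 * κ + ν < 2) : St_MAIN3 ν κ := by
  have h1 : κ < (κ + (2 - 6 * κ - ν) / 3) / 2 := by linarith
  exact chain3 ν κ ((κ + (2 - 6 * κ - ν) / 3) / 2) hκ (by linarith)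
    (prove_PARAM3 ν κ _ hν hκ h1 (by linarith))
    (fun hL => prove_ROUND3 hL ν κ _ hκ h1 (by linarith))

end Pool.Agent.R959.LD3
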